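import Mathlib

set_option autoImplicit false

namespace Pool.Agent.Q39.MF
open Finset Filter

/-- number of choices at denominator `Q` -/
noncomputable def cc (τ : ℝ) (Q : ℕ) : ℕ := ⌈(Q : ℝ) ^ (τ - 2)⌉₊

/-- state sequence -/
noncomputable def st (τ t : ℝ) : ℕ → ℕ × ℝ
  | 0 => (9, t)
  | k + 1 => ((st τ t k).1 ^ 2 * (2 * (cc τ (st τ t k).1 + ⌊(st τ t k).2 * cc τ (st τ t k).1⌋₊) + 1),
      Int.fract ((st τ t k).2 * cc τ (st τ t k).1))

noncomputable def QQ (τ t : ℝ) (k : ℕ) : ℕ := (st τ t k).1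
noncomputable def tt (τ t : ℝ) (k : ℕ) : ℝ := (st τ t k).2
noncomputable def dd (τ t : ℝ) (k : ℕ) : ℕ := 2 * (cc τ (QQ τ t k) + ⌊tt τ t k * cc τ (QQ τ t k)⌋₊) + 1

lemma QQ_zero (τ t : ℝ) : QQ τ t 0 = 9 := rfl
lemma tt_zero (τ t : ℝ) : tt τ t 0 = t := rfl
lemma QQ_succ (τ t : ℝ) (k : ℕ) : QQ τ t (k + 1) = QQ τ t k ^ 2 * dd τ t k := rfl
lemma tt_succ (τ t : ℝ) (k : ℕ) : tt τ t (k + 1) = Int.fract (tt τ t k * cc τ (QQ τ t k)) := rfl

lemma tt_mem (τ t : ℝ) (ht : t ∈ Set.Ico (0 : ℝ) 1) (k : ℕ) : tt τ t k ∈ Set.Ico (0 : ℝ) 1 := by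
  cases k with
  | zero => exact ht
  | succ k => rw [tt_succ]; exact ⟨Int.fract_nonneg _, Int.fract_lt_one _⟩

section
variable {τ t : ℝ} (hτ : 3 < τ) (ht : t ∈ Set.Ico (0 : ℝ) 1)

lemma QQ_odd (τ t : ℝ) (k : ℕ) : Odd (QQ τ t k) := by
  induction k with
  | zero => rw [QQ_zero]; decide
  | succ k ih =>
    rw [QQ_succ]
    exact (ih.pow).mul (odd_two_mul_add_one _)

lemma QQ_pos (τ t : ℝ) (k : ℕ) : 0 < QQ τ t k := (QQ_odd τ t k).pos

lemma cc_bounds (τ : ℝ) (hτ : 3 < τ) (Q : ℕ) (hQ : 1 ≤ Q) :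
    (Q : ℝ) ^ (τ - 2) ≤ cc τ Q ∧ (cc τ Q : ℝ) ≤ 2 * (Q : ℝ) ^ (τ - 2) := by
  have hQ1 : (1 : ℝ) ≤ Q := by exact_mod_cast hQ
  have h1 : (1 : ℝ) ≤ (Q : ℝ) ^ (τ - 2) := Real.one_le_rpow hQ1 (by linarith)
  refine ⟨Nat.le_ceil _, ?_⟩
  have := Nat.ceil_lt_add_one (a := (Q : ℝ) ^ (τ - 2)) (by linarith)
  unfold cc
  linarith

include hτ ht in
lemma dd_bounds (k : ℕ) : 2 * (QQ τ t k : ℝ) ^ (τ - 2) ≤ dd τ t k ∧
    (dd τ t k : ℝ) ≤ 8 * (QQ τ t k : ℝ) ^ (τ - 2) := by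
  obtain ⟨h1, h2⟩ := cc_bounds τ hτ (QQ τ t k) (QQ_pos τ t k)
  obtain ⟨h3, h4⟩ := tt_mem τ t ht k
  have hc : (0 : ℝ) < cc τ (QQ τ t k) := by
    have : (0 : ℝ) < QQ τ t k := by exact_mod_cast QQ_pos τ t k
    have : 0 < (QQ τ t k : ℝ) ^ (τ - 2) := by positivity
    linarith
  have h5 : ⌊tt τ t k * cc τ (QQ τ t k)⌋₊ < cc τ (QQ τ t k) := by
    rw [Nat.floor_lt (by positivity)]
    nlinarith
  have h6 : (⌊tt τ t k * cc τ (QQ τ t k)⌋₊ : ℝ) + 1 ≤ cc τ (QQ τ t k) := by exact_mod_cast h5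
  have h7 : (0 : ℝ) ≤ ⌊tt τ t k * cc τ (QQ τ t k)⌋₊ := Nat.cast_nonneg _
  unfold dd
  push_cast
  constructor <;> linarith

include hτ ht in
lemma QQ_bounds (k : ℕ) : 2 * (QQ τ t k : ℝ) ^ τ ≤ QQ τ t (k + 1) ∧
    (QQ τ t (k + 1) : ℝ) ≤ 8 * (QQ τ t k : ℝ) ^ τ := by
  obtain ⟨h1, h2⟩ := dd_bounds hτ ht k
  have h0 : (0 : ℝ) < QQ τ t k := by exact_mod_cast QQ_pos τ t k
  have e : (QQ τ t k : ℝ) ^ τ = (QQ τ t k : ℝ) ^ 2 * (QQ τ t k : ℝ) ^ (τ - 2) := by
    rw [← Real.rpow_natCast (QQ τ t k : ℝ) 2, ← Real.rpow_add h0]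
    congr 1
    push_cast
    ring
  rw [QQ_succ, e]
  push_cast
  have h3 : 0 < (QQ τ t k : ℝ) ^ 2 := by positivity
  constructor <;> nlinarith

lemma QQ_ge_nine (τ t : ℝ) (k : ℕ) : 9 ≤ QQ τ t k := by
  induction k with
  | zero => exact le_rfl
  | succ k ih =>
    rw [QQ_succ]
    have : 1 ≤ dd τ t k := by unfold dd; omega
    nlinarith

include hτ ht in
lemma QQ_cube (k : ℕ) : 2 * (QQ τ t k : ℝ) ^ 3 ≤ QQ τ t (k + 1) := by
  have h0 : (1 : ℝ) ≤ QQ τ t k := by exact_mod_cast QQ_pos τ t k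
  refine le_trans ?_ (QQ_bounds hτ ht k).1
  rw [← Real.rpow_natCast (QQ τ t k : ℝ) 3]
  have := Real.rpow_le_rpow_of_exponent_le h0 (show ((3 : ℕ) : ℝ) ≤ τ by push_cast; linarith)
  linarith

include hτ ht in
lemma QQ_double (k : ℕ) : 2 * (QQ τ t k : ℝ) ≤ QQ τ t (k + 1) := by
  refine le_trans ?_ (QQ_cube hτ ht k)
  have h0 : (1 : ℝ) ≤ QQ τ t k := by exact_mod_cast QQ_pos τ t k
  nlinarith [mul_le_mul h0 h0 (by norm_num) (by linarith), mul_nonneg (by linarith : (0:ℝ) ≤ QQ τ t k) (by nlinarith : (0:ℝ) ≤ (QQ τ t k : ℝ)^2 - 1)]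

include hτ ht in
lemma inv_bound (k i : ℕ) : 1 / (QQ τ t (k + i) : ℝ) ≤ 1 / (QQ τ t k : ℝ) * (1 / 2) ^ i := by
  induction i with
  | zero => simp
  | succ i ih =>
    have h1 := QQ_double hτ ht (k + i)
    have h0 : (0 : ℝ) < QQ τ t (k + i) := by exact_mod_cast QQ_pos τ t (k + i)
    rw [pow_succ, ← mul_assoc]
    calc 1 / (QQ τ t (k + (i + 1)) : ℝ) ≤ 1 / (2 * QQ τ t (k + i)) :=
          one_div_le_one_div_of_le (by positivity) h1
      _ = 1 / (QQ τ t (k + i) : ℝ) * (1 / 2) := by field_simp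
      _ ≤ _ := mul_le_mul_of_nonneg_right ih (by norm_num)

include hτ ht in
lemma summ (k : ℕ) : Summable fun i => 1 / (QQ τ t (k + i) : ℝ) := by
  refine Summable.of_nonneg_of_le (fun i => by positivity) (fun i => inv_bound hτ ht k i) ?_
  exact (summable_geometric_of_lt_one (by norm_num) (by norm_num)).mul_left _

/-- the number attached to `t` -/
noncomputable def yy (τ t : ℝ) : ℝ := ∑' k, 1 / (QQ τ t k : ℝ)

noncomputable def tail (τ t : ℝ) (k : ℕ) : ℝ := ∑' i, 1 / (QQ τ t (k + i) : ℝ)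

include hτ ht in
lemma tail_le (k : ℕ) : tail τ t k ≤ 2 / QQ τ t k := by
  have h1 : tail τ t k ≤ ∑' i, 1 / (QQ τ t k : ℝ) * (1 / 2) ^ i :=
    Summable.tsum_le_tsum (fun i => inv_bound hτ ht k i) (summ hτ ht k)
      ((summable_geometric_of_lt_one (by norm_num) (by norm_num)).mul_left _)
  rw [tsum_mul_left, tsum_geometric_of_lt_one (by norm_num) (by norm_num)] at h1
  refine h1.trans (le_of_eq ?_)
  field_simp
  norm_num

include hτ ht in
lemma tail_ge (k : ℕ) : 1 / (QQ τ t k : ℝ) ≤ tail τ t k := by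
  have := (summ hτ ht k).le_tsum 0 (fun i _ => by positivity)
  unfold tail
  simpa using this

include hτ ht in
lemma tail_succ (k : ℕ) : tail τ t k = 1 / (QQ τ t k : ℝ) + tail τ t (k + 1) := by
  unfold tail
  rw [(summ hτ ht k).tsum_eq_zero_add]
  congr 1
  apply tsum_congr
  intro i
  rw [show k + 1 + i = k + (i + 1) by ring]

/-- numerators -/
noncomputable def PP (τ t : ℝ) : ℕ → ℤ
  | 0 => 1
  | k + 1 => PP τ t k * QQ τ t k * dd τ t k + 1

lemma PP_coprime (τ t : ℝ) (k : ℕ) : IsCoprime (PP τ t k) (QQ τ t k : ℤ) := by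
  cases k with
  | zero => exact isCoprime_one_left
  | succ k =>
    have h1 : IsCoprime (PP τ t (k + 1)) ((QQ τ t k : ℤ) * dd τ t k) := by
      refine ⟨1, -PP τ t k, ?_⟩
      show 1 * (PP τ t k * QQ τ t k * dd τ t k + 1) + _ = 1
      ring
    have h2 := h1.of_mul_right_left
    have h3 := h1.of_mul_right_right
    rw [QQ_succ]
    push_cast
    rw [pow_two]
    exact (h2.mul_right h2).mul_right h3

include hτ ht in
lemma yy_eq (k : ℕ) : yy τ t = (PP τ t k : ℝ) / QQ τ t k + tail τ t (k + 1) := by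
  induction k with
  | zero =>
    have h1 : yy τ t = tail τ t 0 := by
      unfold yy tail
      simp
    rw [h1, tail_succ hτ ht 0]
    simp [PP]
  | succ k ih =>
    rw [ih, tail_succ hτ ht (k + 1), ← add_assoc]
    congr 1
    have h0 : (QQ τ t k : ℝ) ≠ 0 := by exact_mod_cast (QQ_pos τ t k).ne'
    have h1 : (dd τ t k : ℝ) ≠ 0 := by
      have : dd τ t k ≠ 0 := by unfold dd; omega
      exact_mod_cast this
    rw [QQ_succ]
    show _ = ((PP τ t k * QQ τ t k * dd τ t k + 1 : ℤ) : ℝ) / _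
    push_cast
    field_simp

include hτ ht in
/-- good approximations with odd denominators -/
lemma good (k : ℕ) : |yy τ t - (PP τ t k : ℝ) / QQ τ t k| ≤ (QQ τ t k : ℝ) ^ (-τ) := by
  have h0 : (0 : ℝ) < QQ τ t k := by exact_mod_cast QQ_pos τ t k
  have h00 : (0 : ℝ) < QQ τ t (k + 1) := by exact_mod_cast QQ_pos τ t (k + 1)
  have h1 := tail_le hτ ht (k + 1)
  have h2 := tail_ge hτ ht (k + 1)
  have h3 : (0 : ℝ) < 1 / QQ τ t (k + 1) := by positivity
  rw [yy_eq hτ ht k, add_sub_cancel_left, abs_of_nonneg (by linarith)]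
  refine h1.trans ?_
  rw [Real.rpow_neg h0.le, ← one_div, div_le_div_iff₀ h00 (by positivity)]
  have := (QQ_bounds hτ ht k).1
  linarith

include hτ ht in
/-- badly approximable to order `τ` -/
lemma bad (q : ℕ) (hq : 9 ≤ q) (a : ℤ) : (1 / 8) * (q : ℝ) ^ (-τ) ≤ |yy τ t - (a : ℝ) / q| := by
  classical
  have hq1 : (1 : ℝ) ≤ q := by exact_mod_cast (by omega : 1 ≤ q)
  have hq0 : (0 : ℝ) < q := by linarith
  -- find k
  have hex : ∃ k, q < QQ τ t (k + 1) := by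
    have hgrow : ∀ k, k < QQ τ t k := by
      intro k
      induction k with
      | zero => rw [QQ_zero]; norm_num
      | succ k ih =>
        have h := QQ_double hτ ht k
        have h' : 2 * QQ τ t k ≤ QQ τ t (k + 1) := by exact_mod_cast h
        omega
    refine ⟨q, ?_⟩
    have := hgrow (q + 1)
    omega
  obtain ⟨k, hk1, hk2⟩ : ∃ k, QQ τ t k ≤ q ∧ q < QQ τ t (k + 1) := by
    refine ⟨Nat.find hex, ?_, Nat.find_spec hex⟩
    rcases Nat.eq_zero_or_pos (Nat.find hex) with h | h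
    · rw [h, QQ_zero]; exact hq
    · have := Nat.find_min hex (m := Nat.find hex - 1) (by omega)
      rw [Nat.sub_add_cancel h] at this
      omega
  obtain ⟨Q, hQ⟩ : ∃ Q : ℝ, Q = (QQ τ t k : ℝ) := ⟨_, rfl⟩
  obtain ⟨Q', hQ'⟩ : ∃ Q' : ℝ, Q' = (QQ τ t (k + 1) : ℝ) := ⟨_, rfl⟩
  have hQ0 : 0 < Q := by rw [hQ]; exact_mod_cast QQ_pos τ t k
  have hQ'0 : 0 < Q' := by rw [hQ']; exact_mod_cast QQ_pos τ t (k + 1)
  have hQq : Q ≤ q := by rw [hQ]; exact_mod_cast hk1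
  have hqQ' : (q : ℝ) < Q' := by rw [hQ']; exact_mod_cast hk2
  have hpow : (q : ℝ) ^ (-τ) ≤ 1 / (q : ℝ) ^ 3 := by
    rw [Real.rpow_neg hq0.le, ← one_div]
    apply one_div_le_one_div_of_le (by positivity)
    rw [← Real.rpow_natCast]
    exact Real.rpow_le_rpow_of_exponent_le hq1 (by push_cast; linarith)
  have hdist : ∀ (j : ℕ), (a * QQ τ t j ≠ PP τ t j * q) →
      1 / ((q : ℝ) * QQ τ t j) ≤ |(PP τ t j : ℝ) / QQ τ t j - (a : ℝ) / q| := by
    intro j hne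
    have hj0 : (0 : ℝ) < QQ τ t j := by exact_mod_cast QQ_pos τ t j
    have e1 : (PP τ t j : ℝ) / QQ τ t j - (a : ℝ) / q =
        ((PP τ t j * q - a * QQ τ t j : ℤ) : ℝ) / (q * QQ τ t j) := by
      push_cast
      field_simp
    rw [e1, abs_div, abs_of_pos (mul_pos hq0 hj0)]
    apply div_le_div_of_nonneg_right _ (by positivity)
    rw [← Int.cast_abs]
    have : 1 ≤ |PP τ t j * q - a * QQ τ t j| := Int.one_le_abs (by
      intro h
      apply hne
      linarith)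
    exact_mod_cast this
  by_cases hA : 4 * (q : ℝ) * Q ≤ Q'
  · -- case A
    by_cases heq : a * QQ τ t k = PP τ t k * q
    · have e1 : (a : ℝ) / q = (PP τ t k : ℝ) / Q := by
        rw [div_eq_div_iff hq0.ne' hQ0.ne', hQ]
        exact_mod_cast heq
      have h2 := tail_ge hτ ht (k + 1)
      rw [← hQ'] at h2
      rw [e1, yy_eq hτ ht k, ← hQ, add_sub_cancel_left]
      refine le_trans ?_ (le_abs_self _)
      refine le_trans ?_ h2
      have h3 := (QQ_bounds hτ ht k).2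
      rw [← hQ, ← hQ'] at h3
      have h4 : Q ^ τ ≤ (q : ℝ) ^ τ := Real.rpow_le_rpow hQ0.le hQq (by linarith)
      rw [Real.rpow_neg hq0.le, ← one_div, one_div_mul_one_div]
      apply one_div_le_one_div_of_le hQ'0
      linarith
    · have h1 := hdist k heq
      have h2 := tail_le hτ ht (k + 1)
      have h3 := tail_ge hτ ht (k + 1)
      rw [← hQ] at h1
      rw [← hQ'] at h2 h3
      have h4 : (2 : ℝ) / Q' ≤ 1 / (2 * (q * Q)) := by
        rw [div_le_div_iff₀ hQ'0 (by positivity)]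
        linarith
      have h5 : 1 / ((q : ℝ) * Q) = 2 * (1 / (2 * (q * Q))) := by field_simp
      have h6 : 0 < 1 / Q' := by positivity
      have h7 : 1 / (2 * ((q : ℝ) * Q)) ≤ |yy τ t - (a : ℝ) / q| := by
        rw [yy_eq hτ ht k, ← hQ]
        have h8 : (PP τ t k : ℝ) / Q + tail τ t (k + 1) - (a : ℝ) / q =
          ((PP τ t k : ℝ) / Q - (a : ℝ) / q) + tail τ t (k + 1) := by ring
        rw [h8]
        have h9 : |tail τ t (k + 1)| ≤ 1 / (2 * (q * Q)) := by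
          rw [abs_of_nonneg (by linarith)]
          linarith
        have := abs_sub_abs_le_abs_sub ((PP τ t k : ℝ) / Q - (a : ℝ) / q) (-tail τ t (k + 1))
        rw [abs_neg, sub_neg_eq_add] at this
        linarith
      refine le_trans ?_ h7
      calc (1 / 8) * (q : ℝ) ^ (-τ) ≤ (1 / 8) * (1 / (q : ℝ) ^ 3) :=
            mul_le_mul_of_nonneg_left hpow (by norm_num)
        _ ≤ 1 / (2 * ((q : ℝ) * Q)) := by
            rw [one_div_mul_one_div]
            apply one_div_le_one_div_of_le (by positivity)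
            have : (q : ℝ) * Q ≤ q * q := mul_le_mul_of_nonneg_left hQq hq0.le
            nlinarith
  · -- case B
    push Not at hA
    have hne : a * QQ τ t (k + 1) ≠ PP τ t (k + 1) * q := by
      intro h
      have h1 : (QQ τ t (k + 1) : ℤ) ∣ PP τ t (k + 1) * q := ⟨a, by rw [← h]; ring⟩
      have h2 := (PP_coprime τ t (k + 1)).symm.dvd_of_dvd_mul_left h1
      have h3 := Int.natCast_dvd_natCast.1 h2
      have := Nat.le_of_dvd (by omega) h3
      omega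
    have h1 := hdist (k + 1) hne
    have h2 := tail_le hτ ht (k + 2)
    have h3 := tail_ge hτ ht (k + 2)
    have hc := QQ_cube hτ ht (k + 1)
    have hn : (9 : ℝ) ≤ Q' := by rw [hQ']; exact_mod_cast QQ_ge_nine τ t (k + 1)
    rw [← hQ'] at h1 hc
    have hQ''0 : (0 : ℝ) < QQ τ t (k + 1 + 1) := by exact_mod_cast QQ_pos τ t (k + 2)
    have h4 : (2 : ℝ) / QQ τ t (k + 2) ≤ 1 / (2 * (q * Q')) := by
      rw [div_le_div_iff₀ hQ''0 (by positivity)]
      have : (q : ℝ) * Q' ≤ Q' * Q' := mul_le_mul_of_nonneg_right hqQ'.le hQ'0.le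
      have h5 : 4 * (Q' * Q') ≤ 2 * Q' ^ 3 := by nlinarith [mul_pos hQ'0 hQ'0]
      linarith
    have h5 : 1 / ((q : ℝ) * Q') = 2 * (1 / (2 * (q * Q'))) := by field_simp
    have h6 : (0 : ℝ) < 1 / QQ τ t (k + 1 + 1) := by positivity
    have h7 : 1 / (2 * ((q : ℝ) * Q')) ≤ |yy τ t - (a : ℝ) / q| := by
      rw [yy_eq hτ ht (k + 1), ← hQ']
      have h8 : (PP τ t (k + 1) : ℝ) / Q' + tail τ t (k + 1 + 1) - (a : ℝ) / q =
        ((PP τ t (k + 1) : ℝ) / Q' - (a : ℝ) / q) + tail τ t (k + 1 + 1) := by ring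
      rw [h8]
      have h9 : |tail τ t (k + 1 + 1)| ≤ 1 / (2 * (q * Q')) := by
        rw [abs_of_nonneg (by linarith)]
        linarith
      have := abs_sub_abs_le_abs_sub ((PP τ t (k + 1) : ℝ) / Q' - (a : ℝ) / q) (-tail τ t (k + 1 + 1))
      rw [abs_neg, sub_neg_eq_add] at this
      linarith
    refine le_trans ?_ h7
    calc (1 / 8) * (q : ℝ) ^ (-τ) ≤ (1 / 8) * (1 / (q : ℝ) ^ 3) :=
          mul_le_mul_of_nonneg_left hpow (by norm_num)
      _ ≤ 1 / (2 * ((q : ℝ) * Q')) := by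
          rw [one_div_mul_one_div]
          apply one_div_le_one_div_of_le (by positivity)
          have h10 : Q' ≤ 4 * q * q := by
            have : 4 * (q : ℝ) * Q ≤ 4 * q * q := mul_le_mul_of_nonneg_left hQq (by positivity)
            linarith
          have : (q : ℝ) * Q' ≤ q * (4 * q * q) := mul_le_mul_of_nonneg_left h10 hq0.le
          nlinarith

end

end Pool.Agent.Q39.MF
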