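import Mathlib
import Pool.Agent.Q39.MF.Cantor

set_option autoImplicit false

namespace Pool.Agent.Q39.MF
open Finset Filter

section
variable {τ : ℝ} (hτ : 3 < τ)

/-- expansion of the parameter while the denominators agree -/
lemma expand {t t' : ℝ} (ht : t ∈ Set.Ico (0 : ℝ) 1) (ht' : t' ∈ Set.Ico (0 : ℝ) 1) (hτ : 3 < τ)
    (k : ℕ) (h : ∀ j ≤ k, QQ τ t j = QQ τ t' j) :
    (QQ τ t k : ℝ) ^ ((τ - 2) / τ) / 9 * |t - t'| ≤ |tt τ t k - tt τ t' k| := by
  induction k with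
  | zero =>
    rw [tt_zero, tt_zero, QQ_zero]
    have h1 : ((9 : ℕ) : ℝ) ^ ((τ - 2) / τ) ≤ 9 := by
      calc ((9 : ℕ) : ℝ) ^ ((τ - 2) / τ) ≤ ((9 : ℕ) : ℝ) ^ (1 : ℝ) :=
            Real.rpow_le_rpow_of_exponent_le (by norm_num) (by
              rw [div_le_one (by linarith)]; linarith)
        _ = 9 := by rw [Real.rpow_one]; norm_num
    have h2 := abs_nonneg (t - t')
    nlinarith
  | succ k ih =>
    have ih' := ih fun j hj => h j (by omega)
    have hk := h k (by omega)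
    have hk1 := h (k + 1) le_rfl
    rw [QQ_succ, QQ_succ, ← hk] at hk1
    have hQ0 : 0 < QQ τ t k := QQ_pos τ t k
    have hd : dd τ t k = dd τ t' k := Nat.eq_of_mul_eq_mul_left (by positivity) hk1
    unfold dd at hd
    rw [← hk] at hd
    have hfl : ⌊tt τ t k * cc τ (QQ τ t k)⌋₊ = ⌊tt τ t' k * cc τ (QQ τ t k)⌋₊ := by omega
    have m1 := tt_mem τ t ht k
    have m2 := tt_mem τ t' ht' k
    have n1 : 0 ≤ tt τ t k * cc τ (QQ τ t k) := mul_nonneg m1.1 (Nat.cast_nonneg _)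
    have n2 : 0 ≤ tt τ t' k * cc τ (QQ τ t k) := mul_nonneg m2.1 (Nat.cast_nonneg _)
    have e1 : tt τ t (k + 1) - tt τ t' (k + 1) = (tt τ t k - tt τ t' k) * cc τ (QQ τ t k) := by
      rw [tt_succ, tt_succ, ← hk]
      unfold Int.fract
      have f1 : (⌊tt τ t k * cc τ (QQ τ t k)⌋ : ℝ) = (⌊tt τ t k * cc τ (QQ τ t k)⌋₊ : ℝ) := by
        rw [natCast_floor_eq_intCast_floor n1]
      have f2 : (⌊tt τ t' k * cc τ (QQ τ t k)⌋ : ℝ) = (⌊tt τ t' k * cc τ (QQ τ t k)⌋₊ : ℝ) := by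
        rw [natCast_floor_eq_intCast_floor n2]
      rw [f1, f2, hfl]
      ring
    have hQr : (0 : ℝ) < QQ τ t k := by exact_mod_cast hQ0
    have hcb := (cc_bounds τ hτ (QQ τ t k) hQ0).1
    have hu := (QQ_bounds hτ ht k).2
    have h9 : (9 : ℝ) ≤ QQ τ t k := by exact_mod_cast QQ_ge_nine τ t k
    set η := (τ - 2) / τ with hη
    have hη0 : 0 < η := by rw [hη]; apply div_pos <;> linarith
    have hη1 : τ * η = τ - 2 := by rw [hη]; field_simp
    rw [e1, abs_mul, Nat.abs_cast]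
    have h5 : (QQ τ t (k + 1) : ℝ) ^ η ≤ (QQ τ t k : ℝ) ^ η * (QQ τ t k : ℝ) ^ (τ - 2) := by
      calc (QQ τ t (k + 1) : ℝ) ^ η ≤ (8 * (QQ τ t k : ℝ) ^ τ) ^ η :=
            Real.rpow_le_rpow (Nat.cast_nonneg _) hu hη0.le
        _ = 8 ^ η * (QQ τ t k : ℝ) ^ (τ - 2) := by
            rw [Real.mul_rpow (by norm_num) (by positivity), ← Real.rpow_mul hQr.le, hη1]
        _ ≤ _ := mul_le_mul_of_nonneg_right (Real.rpow_le_rpow (by norm_num) (by linarith) hη0.le)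
            (by positivity)
    have hab := abs_nonneg (t - t')
    calc (QQ τ t (k + 1) : ℝ) ^ η / 9 * |t - t'|
        ≤ ((QQ τ t k : ℝ) ^ η * (QQ τ t k : ℝ) ^ (τ - 2)) / 9 * |t - t'| := by
          apply mul_le_mul_of_nonneg_right _ hab
          apply div_le_div_of_nonneg_right h5 (by norm_num)
      _ = ((QQ τ t k : ℝ) ^ η / 9 * |t - t'|) * (QQ τ t k : ℝ) ^ (τ - 2) := by ring
      _ ≤ |tt τ t k - tt τ t' k| * cc τ (QQ τ t k) := by
          apply mul_le_mul ih' hcb (by positivity) (abs_nonneg _)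

lemma close {t t' : ℝ} (ht : t ∈ Set.Ico (0 : ℝ) 1) (ht' : t' ∈ Set.Ico (0 : ℝ) 1) (hτ : 3 < τ)
    (k : ℕ) (h : ∀ j ≤ k, QQ τ t j = QQ τ t' j) :
    |t - t'| ≤ 9 * (QQ τ t k : ℝ) ^ (-((τ - 2) / τ)) := by
  have h1 := expand ht ht' hτ k h
  have m1 := tt_mem τ t ht k
  have m2 := tt_mem τ t' ht' k
  have h2 : |tt τ t k - tt τ t' k| ≤ 1 := by
    rw [abs_le]; constructor <;> linarith [m1.1, m1.2, m2.1, m2.2]
  have hQr : (0 : ℝ) < QQ τ t k := by exact_mod_cast QQ_pos τ t k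
  have h3 : 0 < (QQ τ t k : ℝ) ^ ((τ - 2) / τ) := by positivity
  rw [Real.rpow_neg hQr.le, ← div_eq_mul_inv, le_div_iff₀ h3]
  nlinarith

lemma sep_aux {t t' : ℝ} (ht : t ∈ Set.Ico (0 : ℝ) 1) (ht' : t' ∈ Set.Ico (0 : ℝ) 1) (hτ : 3 < τ)
    (hne : t ≠ t') : ∃ k, (∀ j ≤ k, QQ τ t j = QQ τ t' j) ∧ QQ τ t (k + 1) ≠ QQ τ t' (k + 1) := by
  classical
  have hex : ∃ k, QQ τ t k ≠ QQ τ t' k := by
    by_contra hcon
    push Not at hcon
    apply hne
    have hlim : Tendsto (fun k : ℕ => 9 * (QQ τ t k : ℝ) ^ (-((τ - 2) / τ))) atTop (nhds 0) := by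
      have h1 : Tendsto (fun k : ℕ => (QQ τ t k : ℝ)) atTop atTop := by
        apply tendsto_natCast_atTop_atTop.comp
        apply tendsto_atTop_mono _ tendsto_id
        intro k
        induction k with
        | zero => exact Nat.zero_le _
        | succ k ih =>
          have h := QQ_double hτ ht k
          have h' : 2 * QQ τ t k ≤ QQ τ t (k + 1) := by exact_mod_cast h
          have := QQ_pos τ t k
          simp only [id] at ih ⊢
          omega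
      have h2 := (tendsto_rpow_neg_atTop (y := (τ - 2) / τ) (by apply div_pos <;> linarith)).comp h1
      have h3 := h2.const_mul 9
      simpa using h3
    have h0 : |t - t'| ≤ 0 := ge_of_tendsto' hlim fun k => close ht ht' hτ k fun j _ => hcon j
    have h1 := abs_nonneg (t - t')
    have h2 : |t - t'| = 0 := le_antisymm h0 h1
    exact sub_eq_zero.1 (abs_eq_zero.1 h2)
  have hf := Nat.find_spec hex
  have h0 : Nat.find hex ≠ 0 := by
    intro h
    rw [h, QQ_zero, QQ_zero] at hf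
    exact hf rfl
  refine ⟨Nat.find hex - 1, ?_, ?_⟩
  · intro j hj
    have := Nat.find_min hex (m := j) (by omega)
    push Not at this
    exact this
  · rwa [Nat.sub_add_cancel (Nat.pos_of_ne_zero h0)]

lemma sep {t t' : ℝ} (ht : t ∈ Set.Ico (0 : ℝ) 1) (ht' : t' ∈ Set.Ico (0 : ℝ) 1) (hτ : 3 < τ)
    (k : ℕ) (h : ∀ j ≤ k, QQ τ t j = QQ τ t' j) (hk : QQ τ t (k + 1) ≠ QQ τ t' (k + 1)) :
    (QQ τ t k : ℝ) ^ (-(2 * τ - 2)) ≤ 128 * |yy τ t - yy τ t'| := by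
  have hPP : ∀ j ≤ k, PP τ t j = PP τ t' j := by
    intro j hj
    induction j with
    | zero => rfl
    | succ j ih =>
      have h1 := ih (by omega)
      have h2 := h j (by omega)
      have h3 := h (j + 1) hj
      rw [QQ_succ, QQ_succ, ← h2] at h3
      have hQ0 : 0 < QQ τ t j := QQ_pos τ t j
      have hd : dd τ t j = dd τ t' j := Nat.eq_of_mul_eq_mul_left (by positivity) h3
      show PP τ t j * QQ τ t j * dd τ t j + 1 = PP τ t' j * QQ τ t' j * dd τ t' j + 1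
      rw [h1, h2, hd]
  have hkk := h k le_rfl
  obtain ⟨Q, hQ⟩ : ∃ Q : ℝ, Q = (QQ τ t k : ℝ) := ⟨_, rfl⟩
  have hQ' : Q = (QQ τ t' k : ℝ) := by rw [hQ, hkk]
  have hQ9 : (9 : ℝ) ≤ Q := by rw [hQ]; exact_mod_cast QQ_ge_nine τ t k
  have hQ0 : 0 < Q := by linarith
  have hQ1 : 1 ≤ Q := by linarith
  obtain ⟨A, hA⟩ : ∃ A : ℝ, A = (QQ τ t (k + 1) : ℝ) := ⟨_, rfl⟩
  obtain ⟨A', hA'⟩ : ∃ A' : ℝ, A' = (QQ τ t' (k + 1) : ℝ) := ⟨_, rfl⟩
  have hA0 : 0 < A := by rw [hA]; exact_mod_cast QQ_pos τ t (k + 1)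
  have hA'0 : 0 < A' := by rw [hA']; exact_mod_cast QQ_pos τ t' (k + 1)
  have y1 := yy_eq hτ ht k
  have y2 := yy_eq hτ ht' k
  rw [tail_succ hτ ht (k + 1)] at y1
  rw [tail_succ hτ ht' (k + 1)] at y2
  rw [← hPP k le_rfl, ← hkk] at y2
  rw [← hA, ← hQ] at y1
  rw [← hA', ← hQ] at y2
  obtain ⟨R, hR⟩ : ∃ R : ℝ, R = tail τ t (k + 1 + 1) := ⟨_, rfl⟩
  obtain ⟨R', hR'⟩ : ∃ R' : ℝ, R' = tail τ t' (k + 1 + 1) := ⟨_, rfl⟩
  rw [← hR] at y1
  rw [← hR'] at y2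
  -- size of A
  have bA := QQ_bounds hτ ht k
  have bA' := QQ_bounds hτ ht' k
  rw [← hA, ← hQ] at bA
  rw [← hA', ← hQ'] at bA'
  have bB := (QQ_bounds hτ ht (k + 1)).1
  have bB' := (QQ_bounds hτ ht' (k + 1)).1
  rw [← hA] at bB
  rw [← hA'] at bB'
  have hτ0 : 0 < τ := by linarith
  have hexp : ∀ B : ℝ, 2 * Q ^ τ ≤ B → Q ^ (τ * τ) ≤ B ^ τ := by
    intro B hB
    rw [Real.rpow_mul hQ0.le]
    apply Real.rpow_le_rpow (by positivity) _ hτ0.le
    have : 0 < Q ^ τ := by positivity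
    linarith
  have tR : ∀ (s : ℝ) (hs : s ∈ Set.Ico (0 : ℝ) 1), Q ^ (τ * τ) ≤ (QQ τ s (k + 1) : ℝ) ^ τ →
      0 ≤ tail τ s (k + 1 + 1) ∧ tail τ s (k + 1 + 1) ≤ Q ^ (-(τ * τ)) := by
    intro s hs hle
    have h1 := tail_le hτ hs (k + 1 + 1)
    have h2 := tail_ge hτ hs (k + 1 + 1)
    have h3 : (0 : ℝ) < QQ τ s (k + 1 + 1) := by exact_mod_cast QQ_pos τ s (k + 1 + 1)
    have h4 : 0 < 1 / (QQ τ s (k + 1 + 1) : ℝ) := by positivity
    refine ⟨by linarith, h1.trans ?_⟩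
    rw [Real.rpow_neg hQ0.le, ← one_div, div_le_div_iff₀ h3 (by positivity)]
    have := (QQ_bounds hτ hs (k + 1)).1
    linarith
  have tR1 := tR t ht (by rw [← hA]; exact hexp A bA.1)
  have tR2 := tR t' ht' (by rw [← hA']; exact hexp A' bA'.1)
  rw [← hR] at tR1
  rw [← hR'] at tR2
  have hRR : |R - R'| ≤ Q ^ (-(τ * τ)) := by
    rw [abs_le]; constructor <;> linarith [tR1.1, tR1.2, tR2.1, tR2.2]
  -- main difference
  have hint : Q ^ 2 ≤ |A' - A| := by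
    have e1 : A' - A = Q ^ 2 * (((dd τ t' k : ℤ) - dd τ t k : ℤ) : ℝ) := by
      rw [hA, hA', QQ_succ, QQ_succ, ← hkk, hQ]
      push_cast
      ring
    rw [e1, abs_mul, abs_of_pos (by positivity : 0 < Q ^ 2), ← Int.cast_abs]
    have hne : (dd τ t' k : ℤ) - dd τ t k ≠ 0 := by
      intro h0
      apply hk
      rw [QQ_succ, QQ_succ, ← hkk]
      congr 1
      omega
    have : (1 : ℝ) ≤ ((|(dd τ t' k : ℤ) - dd τ t k| : ℤ) : ℝ) := by
      exact_mod_cast Int.one_le_abs hne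
    nlinarith [sq_nonneg Q, (by positivity : 0 < Q ^ 2)]
  have hmain : (1 / 64) * Q ^ (-(2 * τ - 2)) ≤ |1 / A - 1 / A'| := by
    have e1 : 1 / A - 1 / A' = (A' - A) / (A * A') := by field_simp
    rw [e1, abs_div, abs_of_pos (mul_pos hA0 hA'0), le_div_iff₀ (mul_pos hA0 hA'0)]
    refine le_trans ?_ hint
    have h3 : A * A' ≤ 64 * Q ^ (2 * τ) := by
      have : A * A' ≤ (8 * Q ^ τ) * (8 * Q ^ τ) := mul_le_mul bA.2 bA'.2 hA'0.le (by positivity)
      refine this.trans (le_of_eq ?_)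
      rw [two_mul, Real.rpow_add hQ0]
      ring
    calc (1 / 64) * Q ^ (-(2 * τ - 2)) * (A * A') ≤ (1 / 64) * Q ^ (-(2 * τ - 2)) * (64 * Q ^ (2 * τ)) :=
          mul_le_mul_of_nonneg_left h3 (by positivity)
      _ = Q ^ (-(2 * τ - 2)) * Q ^ (2 * τ) := by ring
      _ = Q ^ 2 := by
          rw [← Real.rpow_add hQ0, ← Real.rpow_natCast]
          congr 1
          push_cast
          ring
  have hsmall : Q ^ (-(τ * τ)) ≤ (1 / 128) * Q ^ (-(2 * τ - 2)) := by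
    have e1 : Q ^ (-(τ * τ)) = Q ^ (-(2 * τ - 2)) * Q ^ (-(τ * τ - (2 * τ - 2))) := by
      rw [← Real.rpow_add hQ0]; congr 1; ring
    have e2 : Q ^ (-(τ * τ - (2 * τ - 2))) ≤ 1 / 128 := by
      calc Q ^ (-(τ * τ - (2 * τ - 2))) ≤ Q ^ (-(5 : ℝ)) := by
            apply Real.rpow_le_rpow_of_exponent_le hQ1
            nlinarith
        _ ≤ (9 : ℝ) ^ (-(5 : ℝ)) := by
            rw [Real.rpow_neg hQ0.le, Real.rpow_neg (by norm_num)]
            apply inv_anti₀ (by positivity)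
            exact Real.rpow_le_rpow (by norm_num) hQ9 (by norm_num)
        _ ≤ 1 / 128 := by
            rw [Real.rpow_neg (by norm_num), show (5 : ℝ) = ((5 : ℕ) : ℝ) by norm_num,
              Real.rpow_natCast]
            norm_num
    rw [e1, mul_comm]
    exact mul_le_mul_of_nonneg_right e2 (by positivity)
  have hfin : |1 / A - 1 / A'| ≤ |yy τ t - yy τ t'| + |R - R'| := by
    have : 1 / A - 1 / A' = (yy τ t - yy τ t') - (R - R') := by rw [y1, y2]; ring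
    rw [this]
    exact abs_sub _ _
  rw [← hQ]
  linarith

/-- the parametrisation has Hölder inverse -/
lemma holder {t t' : ℝ} (ht : t ∈ Set.Ico (0 : ℝ) 1) (ht' : t' ∈ Set.Ico (0 : ℝ) 1) (hτ : 3 < τ) :
    |t - t'| ≤ 9 * (128 * |yy τ t - yy τ t'|) ^ ((τ - 2) / (τ * (2 * τ - 2))) := by
  by_cases hne : t = t'
  · subst hne
    rw [sub_self, abs_zero]
    positivity
  obtain ⟨k, h1, h2⟩ := sep_aux ht ht' hτ hne
  have h3 := close ht ht' hτ k h1
  have h4 := sep ht ht' hτ k h1 h2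
  have hQr : (0 : ℝ) < QQ τ t k := by exact_mod_cast QQ_pos τ t k
  refine h3.trans ?_
  apply mul_le_mul_of_nonneg_left _ (by norm_num)
  have e1 : (QQ τ t k : ℝ) ^ (-((τ - 2) / τ)) =
      ((QQ τ t k : ℝ) ^ (-(2 * τ - 2))) ^ ((τ - 2) / (τ * (2 * τ - 2))) := by
    rw [← Real.rpow_mul hQr.le]
    congr 1
    have h5 : τ ≠ 0 := by linarith
    have h6 : τ - 1 ≠ 0 := by linarith
    rw [show 2 * τ - 2 = 2 * (τ - 1) by ring]
    field_simp
  rw [e1]
  apply Real.rpow_le_rpow (by positivity) h4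
  apply div_nonneg (by linarith)
  apply mul_nonneg <;> linarith

theorem dim_pos (hτ : 3 < τ) : 0 < dimH (yy τ '' Set.Ico (0 : ℝ) 1) := by
  set s : ℝ := (τ - 2) / (τ * (2 * τ - 2)) with hs
  have hs0 : 0 < s := by
    apply div_pos (by linarith)
    apply mul_pos <;> linarith
  have hinj : Set.InjOn (yy τ) (Set.Ico (0 : ℝ) 1) := by
    intro t ht t' ht' h
    have := holder ht ht' hτ
    rw [h, sub_self, abs_zero, mul_zero, ← hs, Real.zero_rpow hs0.ne', mul_zero] at this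
    exact sub_eq_zero.1 (abs_eq_zero.1 (le_antisymm this (abs_nonneg _)))
  set g : ℝ → ℝ := Function.invFunOn (yy τ) (Set.Ico (0 : ℝ) 1) with hg
  have hgl : ∀ t ∈ Set.Ico (0 : ℝ) 1, g (yy τ t) = t := fun t ht => hinj.leftInvOn_invFunOn ht
  have himg : g '' (yy τ '' Set.Ico (0 : ℝ) 1) = Set.Ico (0 : ℝ) 1 := by
    rw [← Set.image_comp]
    ext x
    constructor
    · rintro ⟨t, ht, rfl⟩
      rw [Function.comp, hgl t ht]
      exact ht
    · intro hx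
      exact ⟨x, hx, hgl x hx⟩
  have hhol : HolderOnWith (Real.toNNReal (9 * 128 ^ s)) (Real.toNNReal s) g
      (yy τ '' Set.Ico (0 : ℝ) 1) := by
    rintro x ⟨t, ht, rfl⟩ x' ⟨t', ht', rfl⟩
    rw [hgl t ht, hgl t' ht', edist_dist, edist_dist, Real.dist_eq, Real.dist_eq]
    have h1 := holder ht ht' hτ
    rw [← hs, Real.mul_rpow (by norm_num) (abs_nonneg _), ← mul_assoc] at h1
    rw [Real.coe_toNNReal s hs0.le, ENNReal.ofReal_rpow_of_nonneg (abs_nonneg _) hs0.le]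
    change _ ≤ ENNReal.ofReal (9 * 128 ^ s) * _
    rw [← ENNReal.ofReal_mul (by positivity)]
    exact ENNReal.ofReal_le_ofReal h1
  have hd := hhol.dimH_image_le (by rw [Real.toNNReal_pos]; exact hs0)
  rw [himg] at hd
  have h1 : dimH (Set.Ico (0 : ℝ) 1) = 1 := by
    have := Real.dimH_of_nonempty_interior (E := ℝ) (s := Set.Ico (0 : ℝ) 1) (by
      rw [interior_Ico]; exact Set.nonempty_Ioo.2 one_pos)
    simpa using this
  rw [h1] at hd
  by_contra hcon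
  have h0 : dimH (yy τ '' Set.Ico (0 : ℝ) 1) = 0 := by
    simpa using hcon
  rw [h0, ENNReal.zero_div] at hd
  exact absurd hd (by norm_num)

end

end Pool.Agent.Q39.MF
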