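import Mathlib
import Pool.Agent.H520R3.Weyl

set_option autoImplicit false

namespace Pool.Agent.Q39.MF
open Finset Pool.Agent.H520R3

lemma e_std (q : ℕ) [NeZero q] (n : ℤ) : e ((n : ℝ) / q) = ZMod.stdAddChar (n : ZMod q) := by
  rw [ZMod.stdAddChar_coe]
  unfold e
  congr 1
  push_cast
  ring

lemma conj_std {q : ℕ} [NeZero q] (a : ZMod q) :
    (starRingEnd ℂ) (ZMod.stdAddChar a) = ZMod.stdAddChar (-a) := by
  rw [AddChar.map_neg_eq_inv, Complex.inv_eq_conj]
  rw [ZMod.stdAddChar_apply]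
  exact Circle.norm_coe _

/-- absolute value of the quadratic Gauss sum to an odd modulus -/
lemma gauss_sq (q : ℕ) [NeZero q] (hq : Odd q) (u : ZMod q) (hu : IsUnit u) :
    ‖∑ x : ZMod q, (ZMod.stdAddChar (u * x ^ 2) : ℂ)‖ ^ 2 = q := by
  have hprim : (ZMod.stdAddChar (N := q)).IsPrimitive := ZMod.isPrimitive_stdAddChar q
  have h2 : IsUnit (2 : ZMod q) := by
    have : IsUnit ((2 : ℕ) : ZMod q) := by
      rw [ZMod.isUnit_iff_coprime]
      exact hq.coprime_two_left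
    simpa using this
  have h1 : ((‖∑ x : ZMod q, (ZMod.stdAddChar (u * x ^ 2) : ℂ)‖ ^ 2 : ℝ) : ℂ) = (q : ℂ) := by
    rw [← Complex.normSq_eq_norm_sq, ← Complex.mul_conj, map_sum, Finset.sum_mul_sum]
    have e1 : ∑ x : ZMod q, ∑ z : ZMod q, (ZMod.stdAddChar (u * x ^ 2) : ℂ) *
        (starRingEnd ℂ) (ZMod.stdAddChar (u * z ^ 2)) =
        ∑ z : ZMod q, ∑ h : ZMod q, (ZMod.stdAddChar (u * h ^ 2) : ℂ) *
          ZMod.stdAddChar (z * (2 * u * h)) := by
      rw [Finset.sum_comm]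
      refine Finset.sum_congr rfl fun z _ => ?_
      rw [← Equiv.sum_comp (Equiv.addRight z)]
      refine Finset.sum_congr rfl fun h _ => ?_
      rw [conj_std, ← AddChar.map_add_eq_mul, ← AddChar.map_add_eq_mul]
      congr 1
      simp only [Equiv.coe_addRight]
      ring
    rw [e1, Finset.sum_comm]
    have e2 : ∀ h : ZMod q, ∑ z : ZMod q, (ZMod.stdAddChar (u * h ^ 2) : ℂ) *
          ZMod.stdAddChar (z * (2 * u * h)) = if h = 0 then (q : ℂ) else 0 := by
      intro h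
      rw [← Finset.mul_sum, AddChar.sum_mulShift _ hprim]
      have : 2 * u * h = 0 ↔ h = 0 := by
        constructor
        · intro h0
          exact ((h2.mul hu).mul_right_eq_zero).1 h0
        · rintro rfl
          simp
      by_cases hh : h = 0
      · rw [if_pos (this.2 hh), if_pos hh, hh]
        simp [ZMod.card]
      · rw [if_neg (fun h0 => hh (this.1 h0)), if_neg hh, Nat.cast_zero, mul_zero]
    rw [Finset.sum_congr rfl fun h _ => e2 h]
    simp
  exact_mod_cast h1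

lemma gauss_real (q : ℕ) (hq : Odd q) (p : ℤ) (hp : IsCoprime p (q : ℤ)) :
    ‖∑ r ∈ range q, e ((p : ℝ) / q * ((r : ℝ) + 1) ^ 2)‖ = Real.sqrt q := by
  have hq0 : q ≠ 0 := by rintro rfl; simp at hq
  have := NeZero.mk hq0
  have hu : IsUnit (p : ZMod q) := by
    rwa [ZMod.coe_int_isUnit_iff_isCoprime, isCoprime_comm]
  have h1 : ∑ r ∈ range q, e ((p : ℝ) / q * ((r : ℝ) + 1) ^ 2) =
      ∑ x : ZMod q, (ZMod.stdAddChar ((p : ZMod q) * x ^ 2) : ℂ) := by
    rw [← Equiv.sum_comp (Equiv.addRight (1 : ZMod q))]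
    have : ∀ x : ZMod q, (ZMod.stdAddChar ((p : ZMod q) * ((Equiv.addRight (1 : ZMod q)) x) ^ 2) : ℂ) =
        (fun n : ℕ => e ((p : ℝ) / q * ((n : ℝ) + 1) ^ 2)) x.val := by
      intro x
      have e1 : (p : ℝ) / q * ((x.val : ℝ) + 1) ^ 2 = ((p * ((x.val : ℤ) + 1) ^ 2 : ℤ) : ℝ) / q := by
        push_cast; ring
      simp only [Equiv.coe_addRight]
      rw [e1, e_std]
      push_cast
      rw [ZMod.natCast_zmod_val]
    rw [Finset.sum_congr rfl fun x _ => this x]
    obtain ⟨k, rfl⟩ : ∃ k, q = k + 1 := ⟨q - 1, by omega⟩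
    exact Finset.sum_range (fun n : ℕ => e ((p : ℝ) / ((k + 1 : ℕ) : ℝ) * ((n : ℝ) + 1) ^ 2))
  rw [h1, ← gauss_sq q hq (p : ZMod q) hu, Real.sqrt_sq (norm_nonneg _)]

lemma sum_blocksC (H K : ℕ) (f : ℕ → ℂ) :
    ∑ h ∈ range (K * H), f h = ∑ i ∈ range K, ∑ r ∈ range H, f (i * H + r) := by
  induction K with
  | zero => simp
  | succ K ih => rw [Nat.succ_mul, sum_range_add, ih, sum_range_succ]

lemma lower_block (q M : ℕ) (hq : Odd q) (p : ℤ) (hp : IsCoprime p (q : ℤ)) (β : ℝ)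
    (h1 : 4 * Real.pi * |β| * ((M : ℝ) * q) ^ 2 ≤ 1)
    (h2 : 16 * Real.pi * |β| * ((M : ℝ) * q) * (q * Real.sqrt q) ≤ 1) :
    (M : ℝ) * q / (4 * Real.sqrt q) ≤
      ‖∑ x ∈ range (M * q), e (((p : ℝ) / q + β) * ((x : ℝ) + 1) ^ 2)‖ := by
  have hq0 : q ≠ 0 := by rintro rfl; simp at hq
  have hq1 : (1 : ℝ) ≤ q := by exact_mod_cast Nat.one_le_iff_ne_zero.2 hq0
  have hqp : (0 : ℝ) < q := by linarith
  set G : ℂ := ∑ r ∈ range q, e ((p : ℝ) / q * ((r : ℝ) + 1) ^ 2) with hG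
  have hGn : ‖G‖ = Real.sqrt q := gauss_real q hq p hp
  have hs0 : 0 < Real.sqrt q := Real.sqrt_pos.2 hqp
  have hss : Real.sqrt q * Real.sqrt q = q := Real.mul_self_sqrt hqp.le
  set T : ℂ := ∑ j ∈ range M, e (β * ((j : ℝ) * q) ^ 2) with hT
  have hM0 : (0 : ℝ) ≤ M := Nat.cast_nonneg _
  have hπ := Real.pi_pos
  have hb := abs_nonneg β
  -- T is large
  have hTn : (M : ℝ) / 2 ≤ ‖T‖ := by
    have e1 : ‖T - M‖ ≤ M / 2 := by
      have : T - M = ∑ j ∈ range M, (e (β * ((j : ℝ) * q) ^ 2) - 1) := by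
        rw [sum_sub_distrib, ← hT]; simp
      rw [this]
      refine (norm_sum_le _ _).trans ?_
      calc ∑ j ∈ range M, ‖e (β * ((j : ℝ) * q) ^ 2) - 1‖ ≤ ∑ j ∈ range M, (1 / 2 : ℝ) := by
            apply sum_le_sum
            intro j hj
            rw [mem_range] at hj
            have hjM : (j : ℝ) ≤ M := by exact_mod_cast hj.le
            refine (norm_e_sub_one_le _).trans ?_
            rw [abs_mul, abs_of_nonneg (sq_nonneg ((j : ℝ) * q))]
            have : ((j : ℝ) * q) ^ 2 ≤ ((M : ℝ) * q) ^ 2 :=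
              pow_le_pow_left₀ (by positivity) (mul_le_mul_of_nonneg_right hjM hqp.le) 2
            have := mul_le_mul_of_nonneg_left this hb
            nlinarith
        _ = M / 2 := by rw [sum_const, card_range, nsmul_eq_mul]; ring
    have e2 : (M : ℝ) = ‖(M : ℂ)‖ := by rw [Complex.norm_natCast]
    have e3 : ‖(M : ℂ)‖ ≤ ‖T‖ + ‖T - M‖ := by
      have : (M : ℂ) = T - (T - M) := by ring
      calc ‖(M : ℂ)‖ = ‖T - (T - M)‖ := by rw [← this]
        _ ≤ _ := norm_sub_le _ _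
    linarith
  have hmain : ‖(∑ x ∈ range (M * q), e (((p : ℝ) / q + β) * ((x : ℝ) + 1) ^ 2)) - T * G‖ ≤
      (M : ℝ) * q * (4 * Real.pi * |β| * (q * ((M : ℝ) * q))) := by
    rw [sum_blocksC q M, hT, sum_mul, ← sum_sub_distrib]
    refine (norm_sum_le _ _).trans ?_
    have : ∀ j ∈ range M, ‖∑ r ∈ range q, e (((p : ℝ) / q + β) * (((j * q + r : ℕ) : ℝ) + 1) ^ 2) -
        e (β * ((j : ℝ) * q) ^ 2) * G‖ ≤ q * (4 * Real.pi * |β| * (q * ((M : ℝ) * q))) := by
      intro j hj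
      rw [mem_range] at hj
      rw [hG, mul_sum, ← sum_sub_distrib]
      refine (norm_sum_le _ _).trans ?_
      calc ∑ r ∈ range q, ‖e (((p : ℝ) / q + β) * (((j * q + r : ℕ) : ℝ) + 1) ^ 2) -
            e (β * ((j : ℝ) * q) ^ 2) * e ((p : ℝ) / q * ((r : ℝ) + 1) ^ 2)‖
          ≤ ∑ r ∈ range q, (4 * Real.pi * |β| * (q * ((M : ℝ) * q))) := by
            apply sum_le_sum
            intro r hr
            rw [mem_range] at hr
            have hr1 : (r : ℝ) + 1 ≤ q := by exact_mod_cast hr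
            have hj1 : (j : ℝ) + 1 ≤ M := by exact_mod_cast hj
            have hr0 : (0 : ℝ) ≤ r := Nat.cast_nonneg _
            have hj0 : (0 : ℝ) ≤ j := Nat.cast_nonneg _
            have e1 : e (((p : ℝ) / q + β) * (((j * q + r : ℕ) : ℝ) + 1) ^ 2) =
                e ((p : ℝ) / q * ((r : ℝ) + 1) ^ 2) * e (β * (((j * q + r : ℕ) : ℝ) + 1) ^ 2) := by
              rw [← e_add, ← e_add_int _ (-(p * (j * (j * q + 2 * (r + 1)))))]
              congr 1
              push_cast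
              field_simp
              ring
            rw [e1, mul_comm (e (β * ((j : ℝ) * q) ^ 2)), ← mul_sub, norm_mul, norm_e, one_mul]
            refine (norm_e_sub_e_le _ _).trans ?_
            have e2 : β * (((j * q + r : ℕ) : ℝ) + 1) ^ 2 - β * ((j : ℝ) * q) ^ 2 =
                β * (((r : ℝ) + 1) * (2 * (j * q) + (r + 1))) := by
              push_cast; ring
            rw [e2, abs_mul, abs_of_nonneg (a := ((r : ℝ) + 1) * (2 * (j * q) + (r + 1))) (by positivity)]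
            have e3 : ((r : ℝ) + 1) * (2 * (j * q) + (r + 1)) ≤ q * (2 * ((M : ℝ) * q)) := by
              apply mul_le_mul hr1 _ (by positivity) hqp.le
              have : ((j : ℝ) + 1) * q ≤ M * q := mul_le_mul_of_nonneg_right hj1 hqp.le
              nlinarith [mul_nonneg hj0 hqp.le]
            have := mul_le_mul_of_nonneg_left e3 hb
            nlinarith
        _ = _ := by rw [sum_const, card_range, nsmul_eq_mul]
    refine (sum_le_sum this).trans ?_
    rw [sum_const, card_range, nsmul_eq_mul]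
    apply le_of_eq
    ring
  have hTG : (M : ℝ) / 2 * Real.sqrt q ≤ ‖T * G‖ := by
    rw [norm_mul, hGn]
    exact mul_le_mul_of_nonneg_right hTn hs0.le
  have htri : ‖T * G‖ ≤ ‖∑ x ∈ range (M * q), e (((p : ℝ) / q + β) * ((x : ℝ) + 1) ^ 2)‖ +
      ‖(∑ x ∈ range (M * q), e (((p : ℝ) / q + β) * ((x : ℝ) + 1) ^ 2)) - T * G‖ := by
    rw [norm_sub_rev]
    have := norm_add_le (∑ x ∈ range (M * q), e (((p : ℝ) / q + β) * ((x : ℝ) + 1) ^ 2))
      (T * G - ∑ x ∈ range (M * q), e (((p : ℝ) / q + β) * ((x : ℝ) + 1) ^ 2))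
    rwa [add_sub_cancel] at this
  have e4 : (M : ℝ) * q / (4 * Real.sqrt q) = (M : ℝ) * Real.sqrt q / 4 := by
    rw [div_eq_div_iff (by positivity) (by norm_num)]
    calc (M : ℝ) * q * 4 = M * (Real.sqrt q * Real.sqrt q) * 4 := by rw [hss]
      _ = _ := by ring
  rw [e4]
  have e5 : (M : ℝ) * q * (4 * Real.pi * |β| * (q * ((M : ℝ) * q))) ≤ M * Real.sqrt q / 4 := by
    have : (M : ℝ) * q * (4 * Real.pi * |β| * (q * ((M : ℝ) * q))) =
        (M * Real.sqrt q / 4) * (16 * Real.pi * |β| * ((M : ℝ) * q) * (q * Real.sqrt q)) := by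
      calc (M : ℝ) * q * (4 * Real.pi * |β| * (q * ((M : ℝ) * q)))
          = (M : ℝ) * (Real.sqrt q * Real.sqrt q) * (4 * Real.pi * |β| * (q * ((M : ℝ) * q))) := by
            rw [hss]
        _ = _ := by ring
    rw [this]
    have h0 : 0 ≤ (M : ℝ) * Real.sqrt q / 4 := by positivity
    nlinarith
  linarith

end Pool.Agent.Q39.MF
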