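import Mathlib
import Pool.Agent.Q39.MF.Lower

set_option autoImplicit false

namespace Pool.Agent.Q39.MF
open Finset Pool.Agent.H520R3 Filter Asymptotics

/-- large values along good odd denominators -/
lemma lower_at (y τ : ℝ) (hτ : 3 < τ) : ∃ Q₀ : ℕ, ∀ q : ℕ, Q₀ ≤ q → Odd q → ∀ p : ℤ,
    IsCoprime p (q : ℤ) → |y - (p : ℝ) / q| ≤ (q : ℝ) ^ (-τ) →
    ∃ N : ℕ, q ≤ N ∧ (N : ℝ) ^ (1 - 1 / τ) / 32 ≤ ‖∑ x ∈ range N, e (y * ((x : ℝ) + 1) ^ 2)‖ := by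
  have hτ0 : 0 < τ := by linarith
  -- largeness
  have t1 : Tendsto (fun q : ℕ => (q : ℝ) ^ (τ / 2 - 1)) atTop atTop :=
    (tendsto_rpow_atTop (by linarith)).comp tendsto_natCast_atTop_atTop
  have t2 : Tendsto (fun q : ℕ => (q : ℝ) ^ (τ / 2 - 3 / 2)) atTop atTop :=
    (tendsto_rpow_atTop (by linarith)).comp tendsto_natCast_atTop_atTop
  obtain ⟨Q₀, hQ₀⟩ := ((t1.eventually_ge_atTop 4).and
    (t2.eventually_ge_atTop (4 * Real.pi))).exists_forall_of_atTop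
  refine ⟨max Q₀ 1, fun q hq hodd p hp hy => ?_⟩
  obtain ⟨h4, h5⟩ := hQ₀ q ((le_max_left _ _).trans hq)
  have hq1 : 1 ≤ q := (le_max_right _ _).trans hq
  have hqr : (1 : ℝ) ≤ q := by exact_mod_cast hq1
  have hq0 : (0 : ℝ) < q := by linarith
  set M : ℕ := ⌊(q : ℝ) ^ (τ / 2 - 1) / 4⌋₊ with hM
  have hMle : (M : ℝ) ≤ (q : ℝ) ^ (τ / 2 - 1) / 4 := Nat.floor_le (by positivity)
  have hM1 : 1 ≤ M := by
    rw [hM, Nat.one_le_floor_iff]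
    linarith
  have hM1r : (1 : ℝ) ≤ M := by exact_mod_cast hM1
  have hMge : (q : ℝ) ^ (τ / 2 - 1) / 8 ≤ M := by
    have := Nat.lt_floor_add_one ((q : ℝ) ^ (τ / 2 - 1) / 4)
    rw [← hM] at this
    linarith
  have hsplit : (q : ℝ) ^ (τ / 2 - 1) * q = (q : ℝ) ^ (τ / 2) := by
    rw [← Real.rpow_add_one hq0.ne']
    congr 1
    ring
  have hMq : (M : ℝ) * q ≤ (q : ℝ) ^ (τ / 2) / 4 := by
    calc (M : ℝ) * q ≤ ((q : ℝ) ^ (τ / 2 - 1) / 4) * q := mul_le_mul_of_nonneg_right hMle hq0.le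
      _ = _ := by rw [div_mul_eq_mul_div, hsplit]
  have hMq' : (q : ℝ) ^ (τ / 2) / 8 ≤ (M : ℝ) * q := by
    calc (q : ℝ) ^ (τ / 2) / 8 = ((q : ℝ) ^ (τ / 2 - 1) / 8) * q := by
          rw [div_mul_eq_mul_div, hsplit]
      _ ≤ _ := mul_le_mul_of_nonneg_right hMge hq0.le
  set β := y - (p : ℝ) / q with hβ
  have hπ := Real.pi_pos
  have hπ4 := Real.pi_le_four
  have hA : 0 < (q : ℝ) ^ (τ / 2) := by positivity
  have hinv : (q : ℝ) ^ (-τ) * ((q : ℝ) ^ (τ / 2) * (q : ℝ) ^ (τ / 2)) = 1 := by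
    rw [← Real.rpow_add hq0, ← Real.rpow_add hq0]
    norm_num
  have hb0 : 0 ≤ |β| := abs_nonneg _
  have hbA : |β| * ((q : ℝ) ^ (τ / 2) * (q : ℝ) ^ (τ / 2)) ≤ 1 := by
    rw [← hinv]
    exact mul_le_mul_of_nonneg_right hy (by positivity)
  have key := lower_block q M hodd p hp β (by
      have : ((M : ℝ) * q) ^ 2 ≤ ((q : ℝ) ^ (τ / 2) / 4) ^ 2 :=
        pow_le_pow_left₀ (by positivity) hMq 2
      have h6 := mul_le_mul_of_nonneg_left this hb0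
      have h7 : |β| * ((q : ℝ) ^ (τ / 2) / 4) ^ 2 ≤ 1 / 16 := by nlinarith
      nlinarith)
    (by
      have e1 : (q : ℝ) * Real.sqrt q = (q : ℝ) ^ (3 / 2 : ℝ) := by
        rw [Real.sqrt_eq_rpow]
        nth_rewrite 1 [← Real.rpow_one (q : ℝ)]
        rw [← Real.rpow_add hq0]
        norm_num
      rw [e1]
      have e2 : (q : ℝ) ^ (3 / 2 : ℝ) * (4 * Real.pi) ≤ (q : ℝ) ^ (τ / 2) := by
        calc (q : ℝ) ^ (3 / 2 : ℝ) * (4 * Real.pi) ≤ (q : ℝ) ^ (3 / 2 : ℝ) * (q : ℝ) ^ (τ / 2 - 3 / 2) :=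
              mul_le_mul_of_nonneg_left h5 (by positivity)
          _ = _ := by rw [← Real.rpow_add hq0]; congr 1; ring
      have h3 : 0 < (q : ℝ) ^ (3 / 2 : ℝ) := by positivity
      calc 16 * Real.pi * |β| * ((M : ℝ) * q) * (q : ℝ) ^ (3 / 2 : ℝ)
          = |β| * ((4 * ((M : ℝ) * q)) * ((q : ℝ) ^ (3 / 2 : ℝ) * (4 * Real.pi))) := by ring
        _ ≤ |β| * ((q : ℝ) ^ (τ / 2) * (q : ℝ) ^ (τ / 2)) := by
            apply mul_le_mul_of_nonneg_left _ hb0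
            apply mul_le_mul (by linarith) e2 (by positivity) hA.le
        _ ≤ 1 := hbA)
  rw [hβ, add_sub_cancel] at key
  refine ⟨M * q, Nat.le_mul_of_pos_left q hM1, le_trans ?_ key⟩
  push_cast
  set X : ℝ := (M : ℝ) * q with hX
  have hX0 : 0 < X := by positivity
  -- sqrt q ≤ (8X)^(1/τ)
  have h8 : Real.sqrt q ≤ (8 * X) ^ (1 / τ) := by
    have h9 : (q : ℝ) ^ (τ / 2) ≤ 8 * X := by linarith
    calc Real.sqrt q = ((q : ℝ) ^ (τ / 2)) ^ (1 / τ) := by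
          rw [Real.sqrt_eq_rpow, ← Real.rpow_mul hq0.le]
          congr 1
          field_simp
      _ ≤ _ := Real.rpow_le_rpow hA.le h9 (by positivity)
  have h10 : (8 * X) ^ (1 / τ) ≤ 8 * X ^ (1 / τ) := by
    rw [Real.mul_rpow (by norm_num) hX0.le]
    apply mul_le_mul_of_nonneg_right _ (by positivity)
    calc (8 : ℝ) ^ (1 / τ) ≤ 8 ^ (1 : ℝ) := Real.rpow_le_rpow_of_exponent_le (by norm_num) (by
          rw [div_le_one hτ0]; linarith)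
      _ = 8 := Real.rpow_one _
  have h11 : X ^ (1 - 1 / τ) * X ^ (1 / τ) = X := by
    rw [← Real.rpow_add hX0]
    norm_num
  rw [div_le_div_iff₀ (by norm_num) (by positivity)]
  have h12 : Real.sqrt q ≤ 8 * X ^ (1 / τ) := h8.trans h10
  have h13 : 0 < X ^ (1 - 1 / τ) := by positivity
  calc X ^ (1 - 1 / τ) * (4 * Real.sqrt q) ≤ X ^ (1 - 1 / τ) * (4 * (8 * X ^ (1 / τ))) := by
        apply mul_le_mul_of_nonneg_left _ h13.le
        linarith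
    _ = 32 * (X ^ (1 - 1 / τ) * X ^ (1 / τ)) := by ring
    _ = X * 32 := by rw [h11]; ring

theorem lower_exp (y τ : ℝ) (hτ : 3 < τ)
    (hy : ∀ Q₀ : ℕ, ∃ q : ℕ, Q₀ ≤ q ∧ Odd q ∧ ∃ p : ℤ, IsCoprime p (q : ℤ) ∧
      |y - (p : ℝ) / q| ≤ (q : ℝ) ^ (-τ)) (s : ℝ)
    (hs : (fun N : ℕ => ‖∑ x ∈ range N, e (y * ((x : ℝ) + 1) ^ 2)‖) =O[atTop]
      fun N : ℕ => (N : ℝ) ^ s) : 1 - 1 / τ ≤ s := by
  by_contra hcon
  push Not at hcon
  obtain ⟨Q₀, hQ₀⟩ := lower_at y τ hτ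
  obtain ⟨C, hC⟩ := hs.bound
  have t : Tendsto (fun N : ℕ => (N : ℝ) ^ (1 - 1 / τ - s)) atTop atTop :=
    (tendsto_rpow_atTop (by linarith)).comp tendsto_natCast_atTop_atTop
  obtain ⟨N₀, hN₀⟩ := (hC.and ((t.eventually_gt_atTop (32 * C)).and
    (eventually_ge_atTop 1))).exists_forall_of_atTop
  obtain ⟨q, hq, hodd, p, hp, hpy⟩ := hy (max Q₀ N₀)
  obtain ⟨N, hN, hlow⟩ := hQ₀ q ((le_max_left _ _).trans hq) hodd p hp hpy
  obtain ⟨h1, h2, h3⟩ := hN₀ N (((le_max_right _ _).trans hq).trans hN)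
  have hN0 : (0 : ℝ) < N := by exact_mod_cast h3
  have hp0 : 0 < (N : ℝ) ^ s := by positivity
  rw [norm_norm, Real.norm_of_nonneg hp0.le] at h1
  have h4 : (N : ℝ) ^ (1 - 1 / τ) = (N : ℝ) ^ (1 - 1 / τ - s) * (N : ℝ) ^ s := by
    rw [← Real.rpow_add hN0]; congr 1; ring
  rw [h4] at hlow
  have h5 := hlow.trans h1
  have h6 : (N : ℝ) ^ (1 - 1 / τ - s) * (N : ℝ) ^ s ≤ (32 * C) * (N : ℝ) ^ s := by linarith
  have h7 := le_of_mul_le_mul_right h6 hp0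
  linarith

end Pool.Agent.Q39.MF
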