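import Mathlib
import Pool.Agent.H520R3.Weyl

set_option autoImplicit false

namespace Pool.Agent.Q39.MF
open Finset Pool.Agent.H520R3

/-- distance to the nearest integer -/
noncomputable def dz (x : ℝ) : ℝ := |x - round x|

lemma dz_le (x : ℝ) (n : ℤ) : dz x ≤ |x - n| := round_le x n

lemma dz_nonneg (x : ℝ) : 0 ≤ dz x := abs_nonneg _

lemma dz_half (x : ℝ) : dz x ≤ 1 / 2 := abs_sub_round x

/-- sum over a set on which the bucket map is injective -/
lemma bucket (R : Finset ℕ) (f : ℕ → ℝ) (θ : ℕ → ℝ) (N δ : ℝ) (hδ : 0 < δ) (hδ1 : δ ≤ 1)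
    (hN : 0 ≤ N) (h0 : ∀ r ∈ R, f r ≤ N)
    (h1 : ∀ r ∈ R, ∀ κ : ℝ, 0 < κ → κ ≤ dz (θ r) → f r ≤ 1 / κ)
    (hinj : Set.InjOn (fun r => ⌊dz (θ r) / δ⌋₊) R) :
    ∑ r ∈ R, f r ≤ N + (1 / δ) * (1 + Real.log (1 / δ)) := by
  classical
  set J : ℕ := ⌊(1 / 2) / δ⌋₊ with hJ
  set g : ℕ → ℝ := fun j => if j = 0 then N else 1 / (j * δ) with hg
  have hg0 : ∀ j, 0 ≤ g j := by
    intro j
    simp only [hg]
    split_ifs
    · exact hN
    · positivity
  have hle : ∀ r ∈ R, f r ≤ g ⌊dz (θ r) / δ⌋₊ := by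
    intro r hr
    simp only [hg]
    split_ifs with h
    · exact h0 r hr
    · have hpos : 0 < ⌊dz (θ r) / δ⌋₊ := Nat.pos_of_ne_zero h
      refine h1 r hr _ (by positivity) ?_
      have := Nat.floor_le (div_nonneg (dz_nonneg (θ r)) hδ.le)
      rwa [le_div_iff₀ hδ] at this
  have hmem : (R.image fun r => ⌊dz (θ r) / δ⌋₊) ⊆ range (J + 1) := by
    intro j hj
    rw [mem_image] at hj
    obtain ⟨r, _, rfl⟩ := hj
    rw [mem_range, Nat.lt_succ_iff]
    apply Nat.floor_le_floor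
    exact div_le_div_of_nonneg_right (dz_half _) hδ.le
  have hJ1 : (J : ℝ) ≤ (1 / 2) / δ := Nat.floor_le (by positivity)
  calc ∑ r ∈ R, f r ≤ ∑ r ∈ R, g ⌊dz (θ r) / δ⌋₊ := sum_le_sum hle
    _ = ∑ j ∈ R.image (fun r => ⌊dz (θ r) / δ⌋₊), g j := (sum_image hinj).symm
    _ ≤ ∑ j ∈ range (J + 1), g j := sum_le_sum_of_subset_of_nonneg hmem fun j _ _ => hg0 j
    _ = N + (1 / δ) * ∑ j ∈ range J, ((j + 1 : ℕ) : ℝ)⁻¹ := by
        rw [sum_range_succ', add_comm]
        congr 1
        rw [mul_sum]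
        refine sum_congr rfl fun j _ => ?_
        simp only [hg]
        rw [if_neg (by omega), one_div, mul_inv, one_div, mul_comm]
    _ ≤ N + (1 / δ) * (1 + Real.log (1 / δ)) := by
        have hh := harmonic_le_one_add_log J
        have e1 : ((harmonic J : ℚ) : ℝ) = ∑ j ∈ range J, ((j + 1 : ℕ) : ℝ)⁻¹ := by
          unfold harmonic
          push_cast
          rfl
        rw [e1] at hh
        have hl : Real.log J ≤ Real.log (1 / δ) := by
          rcases Nat.eq_zero_or_pos J with h | h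
          · rw [h, Nat.cast_zero, Real.log_zero]
            apply Real.log_nonneg
            rw [le_div_iff₀ hδ]; linarith
          · apply Real.log_le_log (by exact_mod_cast h)
            refine hJ1.trans ?_
            apply div_le_div_of_nonneg_right _ hδ.le
            norm_num
        have : 0 < 1 / δ := by positivity
        have := mul_le_mul_of_nonneg_left (hh.trans (by linarith : 1 + Real.log J ≤ 1 + Real.log (1/δ))) this.le
        linarith

/-- sum over a block of length `H` -/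
lemma block_sum (H : ℕ) (f : ℕ → ℝ) (θ : ℕ → ℝ) (N δ : ℝ) (hδ : 0 < δ) (hδ1 : δ ≤ 1)
    (hN : 0 ≤ N) (h0 : ∀ r ∈ range H, f r ≤ N)
    (h1 : ∀ r ∈ range H, ∀ κ : ℝ, 0 < κ → κ ≤ dz (θ r) → f r ≤ 1 / κ)
    (hsp : ∀ r ∈ range H, ∀ s ∈ range H, r ≠ s → ∀ n : ℤ, δ ≤ |θ s - θ r - n|) :
    ∑ r ∈ range H, f r ≤ 2 * (N + (1 / δ) * (1 + Real.log (1 / δ))) := by
  classical
  have key : ∀ (P : ℕ → Prop) [DecidablePred P], (∀ r s, P r → P s → ⌊dz (θ r) / δ⌋₊ = ⌊dz (θ s) / δ⌋₊ →
      |(θ s - round (θ s)) - (θ r - round (θ r))| < δ) →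
      Set.InjOn (fun r => ⌊dz (θ r) / δ⌋₊) ((range H).filter P : Finset ℕ) := by
    intro P _ hP r hr s hs hrs
    rw [mem_coe, mem_filter] at hr hs
    by_contra hne
    have h2 := hP r s hr.2 hs.2 hrs
    have h3 := hsp r hr.1 s hs.1 hne (round (θ s) - round (θ r))
    push_cast at h3
    rw [show θ s - θ r - ((round (θ s) : ℝ) - round (θ r)) =
      (θ s - round (θ s)) - (θ r - round (θ r)) by ring] at h3
    linarith
  have hfl : ∀ r s, ⌊dz (θ r) / δ⌋₊ = ⌊dz (θ s) / δ⌋₊ → |dz (θ s) - dz (θ r)| < δ := by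
    intro r s h
    have a1 := Nat.floor_le (div_nonneg (dz_nonneg (θ r)) hδ.le)
    have a2 := Nat.lt_floor_add_one (dz (θ r) / δ)
    have a3 := Nat.floor_le (div_nonneg (dz_nonneg (θ s)) hδ.le)
    have a4 := Nat.lt_floor_add_one (dz (θ s) / δ)
    rw [h] at a1 a2
    rw [le_div_iff₀ hδ] at a1 a3
    rw [div_lt_iff₀ hδ] at a2 a4
    rw [abs_lt]
    constructor <;> nlinarith
  have hp := key (fun r => 0 ≤ θ r - round (θ r)) (by
    intro r s hr hs h
    have := hfl r s h
    unfold dz at this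
    rwa [abs_of_nonneg hr, abs_of_nonneg hs] at this)
  have hn := key (fun r => ¬ 0 ≤ θ r - round (θ r)) (by
    intro r s hr hs h
    have := hfl r s h
    unfold dz at this
    push Not at hr hs
    rw [abs_of_neg hr, abs_of_neg hs] at this
    rw [abs_sub_comm]
    rw [show -(θ s - round (θ s)) - -(θ r - round (θ r)) =
      (θ r - round (θ r)) - (θ s - round (θ s)) by ring] at this
    exact this)
  rw [← sum_filter_add_sum_filter_not (range H) (fun r => 0 ≤ θ r - round (θ r))]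
  have b1 := bucket ((range H).filter (fun r => 0 ≤ θ r - round (θ r))) f θ N δ hδ hδ1 hN
    (fun r hr => h0 r (mem_filter.1 hr).1) (fun r hr => h1 r (mem_filter.1 hr).1) hp
  have b2 := bucket ((range H).filter (fun r => ¬ 0 ≤ θ r - round (θ r))) f θ N δ hδ hδ1 hN
    (fun r hr => h0 r (mem_filter.1 hr).1) (fun r hr => h1 r (mem_filter.1 hr).1) hn
  linarith

lemma sum_blocks (H K : ℕ) (f : ℕ → ℝ) :
    ∑ h ∈ range (K * H), f h = ∑ i ∈ range K, ∑ r ∈ range H, f (i * H + r) := by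
  induction K with
  | zero => simp
  | succ K ih => rw [Nat.succ_mul, sum_range_add, ih, sum_range_succ]

/-- Weyl's inequality for quadratic sums in terms of the spacing of the multiples of `2y`. -/
lemma weyl_spacing (y : ℝ) (N H : ℕ) (hH : 1 ≤ H) (δ : ℝ) (hδ : 0 < δ) (hδ1 : δ ≤ 1)
    (hsp : ∀ h : ℕ, 1 ≤ h → h < H → ∀ n : ℤ, δ ≤ |2 * y * h - n|) :
    ‖∑ x ∈ range N, e (y * ((x : ℝ) + 1) ^ 2)‖ ^ 2 ≤
      4 * ((N / H + 1 : ℕ) : ℝ) * (N + (1 / δ) * (1 + Real.log (1 / δ))) := by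
  have h1 := diff_ineq (fun x : ℕ => e (y * ((x : ℝ) + 1) ^ 2)) N
  set f : ℕ → ℝ := fun h => ‖∑ x ∈ range (N - h), e ((2 * y * h) * x)‖ with hf
  have h2 : ∀ h ∈ range N, ‖∑ x ∈ range (N - h), e (y * (((h + x : ℕ) : ℝ) + 1) ^ 2) *
      (starRingEnd ℂ) (e (y * ((x : ℝ) + 1) ^ 2))‖ = f h := by
    intro h _
    have : ∑ x ∈ range (N - h), e (y * (((h + x : ℕ) : ℝ) + 1) ^ 2) *
      (starRingEnd ℂ) (e (y * ((x : ℝ) + 1) ^ 2)) =
      e (y * (h : ℝ) ^ 2 + 2 * y * h) * ∑ x ∈ range (N - h), e ((2 * y * h) * x) := by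
      rw [mul_sum]
      apply sum_congr rfl
      intro x _
      rw [← e_neg, ← e_add, ← e_add]
      congr 1
      push_cast
      ring
    rw [this, norm_mul, norm_e, one_mul]
  have hfN : ∀ h : ℕ, f h ≤ N := by
    intro h
    refine (norm_sum_le _ _).trans ?_
    rw [sum_congr rfl (fun x _ => norm_e _)]
    simp only [sum_const, card_range, nsmul_eq_mul, mul_one]
    exact_mod_cast Nat.sub_le _ _
  have hfκ : ∀ h : ℕ, ∀ κ : ℝ, 0 < κ → κ ≤ dz (2 * y * h) → f h ≤ 1 / κ := by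
    intro h κ hκ hd
    have := geom_bound (x := 2 * y * h) (κ := κ / 2) (by positivity) (fun n => by
      have := dz_le (2 * y * h) n
      linarith) (N - h)
    refine this.trans (le_of_eq ?_)
    field_simp
  have h3 : ∑ h ∈ range N, f h ≤ ∑ h ∈ range ((N / H + 1) * H), f h := by
    apply sum_le_sum_of_subset_of_nonneg
    · intro h hh
      rw [mem_range] at hh ⊢
      have := Nat.lt_div_mul_add (a := N) (b := H) (by omega)
      have e : (N / H + 1) * H = N / H * H + H := by ring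
      omega
    · intro h _ _
      exact norm_nonneg _
  rw [sum_blocks] at h3
  have h4 : ∀ i ∈ range (N / H + 1), ∑ r ∈ range H, f (i * H + r) ≤
      2 * (N + (1 / δ) * (1 + Real.log (1 / δ))) := by
    intro i _
    apply block_sum H (fun r => f (i * H + r)) (fun r => 2 * y * ((i * H + r : ℕ) : ℝ)) N δ hδ hδ1
      (by positivity)
    · intro r _
      exact hfN _
    · intro r _ κ hκ hd
      exact hfκ _ κ hκ hd
    · intro r hr s hs hne n
      rw [mem_range] at hr hs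
      have e1 : 2 * y * ((i * H + s : ℕ) : ℝ) - 2 * y * ((i * H + r : ℕ) : ℝ) - n =
        2 * y * ((s : ℝ) - r) - n := by push_cast; ring
      rw [e1]
      rcases Nat.lt_or_gt_of_ne hne with h | h
      · have := hsp (s - r) (by omega) (by omega) n
        rw [Nat.cast_sub h.le] at this
        exact this
      · have := hsp (r - s) (by omega) (by omega) (-n)
        rw [Nat.cast_sub h.le] at this
        rw [← abs_neg]
        rw [show -(2 * y * ((s : ℝ) - r) - n) = 2 * y * ((r : ℝ) - s) - ((-n : ℤ) : ℝ) by push_cast; ring]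
        exact this
  have h5 := sum_le_sum h4
  rw [sum_const, card_range, nsmul_eq_mul] at h5
  rw [sum_congr rfl h2] at h1
  linarith

end Pool.Agent.Q39.MF
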