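import Mathlib
import Pool.Agent.Q39.MF.Upper

set_option autoImplicit false

namespace Pool.Agent.Q39.MF
open Finset Pool.Agent.H520R3

/-- consecutive best approximations: if `q` minimises the distance among `1..N-1` then all smaller
multiples are `1/(2q)`-far from the integers. -/
lemma best_sep (α : ℝ) (q : ℕ) (hpos : ∀ h : ℕ, 1 ≤ h → 0 < dz (α * h))
    (hmin : ∀ h : ℕ, 1 ≤ h → h < q → dz (α * q) ≤ dz (α * h)) (h : ℕ) (h1 : 1 ≤ h) (hq : h < q) :
    1 / (2 * (q : ℝ)) ≤ dz (α * h) := by
  by_contra hcon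
  push Not at hcon
  have hq0 : (0 : ℝ) < q := by exact_mod_cast (by omega : 0 < q)
  have hh0 : (0 : ℝ) < h := by exact_mod_cast h1
  have hhq : (h : ℝ) < q := by exact_mod_cast hq
  have hm := hmin h h1 hq
  set a := round (α * h) with ha
  set b := round (α * q) with hb
  have e1 : dz (α * h) = |α * h - a| := rfl
  have e2 : dz (α * q) = |α * q - b| := rfl
  have h3 : |((q * a - h * b : ℤ) : ℝ)| < 1 := by
    have : ((q * a - h * b : ℤ) : ℝ) = h * (α * q - b) - q * (α * h - a) := by
      push_cast; ring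
    rw [this]
    calc |h * (α * q - b) - q * (α * h - a)| ≤ |h * (α * q - b)| + |q * (α * h - a)| := abs_sub _ _
      _ = h * dz (α * q) + q * dz (α * h) := by
          rw [abs_mul, abs_mul, abs_of_pos hq0, abs_of_pos hh0, e1, e2]
      _ < 1 := by
          have : q * dz (α * h) < 1 / 2 := by
            have := mul_lt_mul_of_pos_left hcon hq0
            rw [show (q : ℝ) * (1 / (2 * q)) = 1 / 2 by field_simp] at this
            exact this
          have h5 : h * dz (α * q) ≤ q * dz (α * h) :=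
            mul_le_mul hhq.le hm (dz_nonneg _) hq0.le
          linarith
  have h4 : (q : ℤ) * a - h * b = 0 := by
    by_contra hne
    have := Int.one_le_abs hne
    have h6 : (1 : ℝ) ≤ |((q * a - h * b : ℤ) : ℝ)| := by
      rw [← Int.cast_abs]; exact_mod_cast this
    linarith
  have h5 : (q : ℝ) * a = h * b := by
    have : (q : ℤ) * a = h * b := by linarith
    exact_mod_cast this
  have h6 : h * dz (α * q) = q * dz (α * h) := by
    rw [e1, e2, ← abs_of_pos hh0, ← abs_mul, ← abs_of_pos hq0, ← abs_mul, abs_of_pos hh0, abs_of_pos hq0]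
    congr 1
    linarith
  have h7 := hpos h h1
  nlinarith

theorem upper (y τ c : ℝ) (hτ : 2 ≤ τ) (hc : 0 < c) (hc1 : c ≤ 1)
    (hy : ∀ q : ℕ, 1 ≤ q → ∀ a : ℤ, c * (q : ℝ) ^ (1 - τ) ≤ |2 * y * q - a|) :
    ∃ C : ℝ, 0 < C ∧ ∀ N : ℕ, 1 ≤ N →
      ‖∑ x ∈ range N, e (y * ((x : ℝ) + 1) ^ 2)‖ ^ 2 ≤
        C * (N : ℝ) ^ (2 - 2 / τ) * (1 + Real.log N) := by
  have hlc : 0 ≤ Real.log (1 / c) := Real.log_nonneg (by rw [le_div_iff₀ hc]; linarith)
  refine ⟨40 + 8 * (1 + (1 / c) * (1 + Real.log (1 / c) + τ)), by positivity, fun N hN => ?_⟩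
  set K := (1 / c) * (1 + Real.log (1 / c) + τ) with hK
  have hK0 : 0 ≤ K := by positivity
  have hN1 : (1 : ℝ) ≤ N := by exact_mod_cast hN
  have hN0 : (0 : ℝ) < N := by linarith
  have hlN : 0 ≤ Real.log N := Real.log_nonneg hN1
  have hτ0 : 0 < τ := by linarith
  have hexp1 : 1 ≤ 2 - 2 / τ := by
    have : 2 / τ ≤ 1 := by rw [div_le_one hτ0]; exact hτ
    linarith
  have hpow1 : (N : ℝ) ≤ (N : ℝ) ^ (2 - 2 / τ) := by
    calc (N : ℝ) = (N : ℝ) ^ (1 : ℝ) := (Real.rpow_one _).symm
      _ ≤ _ := Real.rpow_le_rpow_of_exponent_le hN1 hexp1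
  set X := (N : ℝ) ^ (2 - 2 / τ) with hX
  have hX1 : 1 ≤ X := hN1.trans hpow1
  rcases Nat.lt_or_ge N 2 with h2 | h2
  · have : N = 1 := by omega
    subst this
    simp only [range_one, sum_singleton, norm_e, one_pow, Nat.cast_one, Real.log_one, add_zero, mul_one]
    nlinarith
  have hpos : ∀ h : ℕ, 1 ≤ h → 0 < dz (2 * y * h) := by
    intro h hh
    have := hy h hh (round (2 * y * h))
    have h3 : 0 < c * (h : ℝ) ^ (1 - τ) := by
      have : (0 : ℝ) < h := by exact_mod_cast hh
      positivity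
    exact lt_of_lt_of_le h3 this
  obtain ⟨q, hq, hmin⟩ := exists_min_image (Icc 1 (N - 1)) (fun h : ℕ => dz (2 * y * h))
    ⟨1, mem_Icc.2 ⟨le_rfl, by omega⟩⟩
  rw [mem_Icc] at hq
  have hq1 : (1 : ℝ) ≤ q := by exact_mod_cast hq.1
  have hqN : (q : ℝ) ≤ N := by exact_mod_cast (by omega : q ≤ N)
  have hq0 : (0 : ℝ) < q := by linarith
  rcases le_or_gt ((N : ℝ) ^ (2 / τ)) q with hcase | hcase
  · -- case b
    have hsep := best_sep (2 * y) q hpos (fun h h1 h2 => hmin h (mem_Icc.2 ⟨h1, by omega⟩))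
    have hb := weyl_spacing y N q hq.1 (1 / (2 * (q : ℝ))) (by positivity)
      (by rw [div_le_one (by positivity)]; linarith)
      (fun h h1 h2 n => (hsep h h1 h2).trans (dz_le _ _))
    have e1 : 1 / (1 / (2 * (q : ℝ))) = 2 * q := by field_simp
    rw [e1] at hb
    have h5 : ((N / q + 1 : ℕ) : ℝ) ≤ 2 * N / q := by
      rw [le_div_iff₀ hq0]
      push_cast
      have := Nat.div_mul_le_self N q
      have h6 : ((N / q : ℕ) : ℝ) * q ≤ N := by exact_mod_cast this
      linarith
    have hlq : Real.log (2 * q) ≤ 1 + Real.log N := by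
      rw [Real.log_mul (by norm_num) hq0.ne']
      have := Real.log_two_lt_d9
      have := Real.log_le_log hq0 hqN
      linarith
    have hlq0 : 0 ≤ Real.log (2 * q) := Real.log_nonneg (by linarith)
    have h6 : (N : ℝ) + 2 * q * (1 + Real.log (2 * q)) ≤ 5 * N * (1 + Real.log N) := by
      have : 2 * (q : ℝ) * (1 + Real.log (2 * q)) ≤ 2 * N * (2 + Real.log N) := by
        apply mul_le_mul (by linarith) (by linarith) (by linarith) (by linarith)
      nlinarith
    have h7 : (N : ℝ) ^ 2 / q ≤ X := by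
      rw [div_le_iff₀ hq0, hX]
      calc (N : ℝ) ^ 2 = (N : ℝ) ^ (2 - 2 / τ) * (N : ℝ) ^ (2 / τ) := by
            rw [← Real.rpow_add hN0, ← Real.rpow_natCast]; congr 1; push_cast; ring
        _ ≤ _ := mul_le_mul_of_nonneg_left hcase (by positivity)
    calc ‖∑ x ∈ range N, e (y * ((x : ℝ) + 1) ^ 2)‖ ^ 2
        ≤ 4 * ((N / q + 1 : ℕ) : ℝ) * (N + 2 * q * (1 + Real.log (2 * q))) := hb
      _ ≤ 4 * (2 * N / q) * (5 * N * (1 + Real.log N)) := by
          apply mul_le_mul (by linarith) h6 _ (by positivity)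
          have : 0 ≤ 2 * (q : ℝ) * (1 + Real.log (2 * q)) := by positivity
          linarith
      _ = 40 * ((N : ℝ) ^ 2 / q) * (1 + Real.log N) := by ring
      _ ≤ 40 * X * (1 + Real.log N) := by
          apply mul_le_mul_of_nonneg_right _ (by linarith)
          linarith
      _ ≤ _ := by
          apply mul_le_mul_of_nonneg_right _ (by linarith)
          apply mul_le_mul_of_nonneg_right _ (by linarith)
          nlinarith
  · -- case a
    have hδ := hpos q hq.1
    have ha := weyl_spacing y N N hN (dz (2 * y * q)) hδ ((dz_half _).trans (by norm_num))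
      (fun h h1 h2 n => (hmin h (mem_Icc.2 ⟨h1, by omega⟩)).trans (dz_le _ _))
    rw [Nat.div_self (by omega)] at ha
    have hd : c * (q : ℝ) ^ (1 - τ) ≤ dz (2 * y * q) := hy q hq.1 _
    have hqp : 0 < (q : ℝ) ^ (1 - τ) := by positivity
    have h5 : 1 / dz (2 * y * q) ≤ (1 / c) * (q : ℝ) ^ (τ - 1) := by
      rw [show τ - 1 = -(1 - τ) by ring, Real.rpow_neg hq0.le, ← one_div, one_div_mul_one_div]
      exact one_div_le_one_div_of_le (by positivity) hd
    have h6 : (q : ℝ) ^ (τ - 1) ≤ X := by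
      calc (q : ℝ) ^ (τ - 1) ≤ ((N : ℝ) ^ (2 / τ)) ^ (τ - 1) :=
            Real.rpow_le_rpow hq0.le hcase.le (by linarith)
        _ = X := by
            rw [← Real.rpow_mul hN0.le, hX]
            congr 1
            field_simp
    have h7 : Real.log (1 / dz (2 * y * q)) ≤ Real.log (1 / c) + τ * Real.log N := by
      have l1 := Real.log_le_log (by positivity) h5
      rw [Real.log_mul (by positivity) (by positivity), Real.log_rpow hq0] at l1
      have l2 := Real.log_le_log hq0 hqN
      have l3 : 0 ≤ Real.log q := Real.log_nonneg hq1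
      nlinarith
    have hl0 : 0 ≤ Real.log (1 / dz (2 * y * q)) := by
      apply Real.log_nonneg
      rw [le_div_iff₀ hδ, one_mul]
      exact (dz_half _).trans (by norm_num)
    have h8 : (1 / dz (2 * y * q)) * (1 + Real.log (1 / dz (2 * y * q))) ≤
        X * (K * (1 + Real.log N)) := by
      calc (1 / dz (2 * y * q)) * (1 + Real.log (1 / dz (2 * y * q)))
          ≤ ((1 / c) * X) * (1 + (Real.log (1 / c) + τ * Real.log N)) := by
            apply mul_le_mul _ (by linarith) (by linarith) (by positivity)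
            exact h5.trans (mul_le_mul_of_nonneg_left h6 (by positivity))
        _ ≤ ((1 / c) * X) * ((1 + Real.log (1 / c) + τ) * (1 + Real.log N)) := by
            apply mul_le_mul_of_nonneg_left _ (by positivity)
            nlinarith [mul_nonneg hlc hlN]
        _ = X * (K * (1 + Real.log N)) := by rw [hK]; ring
    calc ‖∑ x ∈ range N, e (y * ((x : ℝ) + 1) ^ 2)‖ ^ 2
        ≤ 4 * ((1 + 1 : ℕ) : ℝ) * (N + (1 / dz (2 * y * q)) * (1 + Real.log (1 / dz (2 * y * q)))) := ha
      _ ≤ 8 * (X * (1 + Real.log N) + X * (K * (1 + Real.log N))) := by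
          push_cast
          have : (N : ℝ) ≤ X * (1 + Real.log N) := by nlinarith
          nlinarith
      _ = (8 * (1 + K)) * X * (1 + Real.log N) := by ring
      _ ≤ _ := by
          apply mul_le_mul_of_nonneg_right _ (by linarith)
          apply mul_le_mul_of_nonneg_right _ (by linarith)
          linarith

end Pool.Agent.Q39.MF
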