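import Mathlib
import Pool.Agent.Q39.MF.Upper2
import Pool.Agent.Q39.MF.Lower2
import Pool.Agent.Q39.MF.Cantor2

set_option autoImplicit false

namespace Pool.Agent.Q39.MF
open Finset Pool.Agent.H520R3 Filter Asymptotics

noncomputable def SS (y : ℝ) (N : ℕ) : ℝ := ‖∑ x ∈ range N, e (y * ((x : ℝ) + 1) ^ 2)‖

lemma SS_nonneg (y : ℝ) (N : ℕ) : 0 ≤ SS y N := norm_nonneg _

lemma yy_mem {τ t : ℝ} (hτ : 3 < τ) (ht : t ∈ Set.Ico (0 : ℝ) 1) : yy τ t ∈ Set.Ico (0 : ℝ) 1 := by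
  have h1 := yy_eq hτ ht 0
  have h2 := tail_ge hτ ht 0
  have h3 := tail_le hτ ht 0
  have h4 := tail_succ hτ ht 0
  rw [QQ_zero] at h1 h2 h3 h4
  have h5 : PP τ t 0 = 1 := rfl
  rw [h5] at h1
  push_cast at *
  constructor <;> linarith

lemma yy_upper {τ t : ℝ} (hτ : 3 < τ) (ht : t ∈ Set.Ico (0 : ℝ) 1) :
    ∃ C : ℝ, 0 < C ∧ ∀ N : ℕ, 1 ≤ N → SS (yy τ t) N ^ 2 ≤
        C * (N : ℝ) ^ (2 - 2 / τ) * (1 + Real.log N) := by
  apply upper (yy τ t) τ ((1 / 4) * (18 : ℝ) ^ (-τ)) (by linarith) (by positivity)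
  · have : (18 : ℝ) ^ (-τ) ≤ 1 := by
      rw [Real.rpow_neg (by norm_num)]
      apply inv_le_one_of_one_le₀
      exact Real.one_le_rpow (by norm_num) (by linarith)
    linarith
  · intro q hq a
    have h1 := bad hτ ht (18 * q) (by omega) (9 * a)
    have hq0 : (0 : ℝ) < q := by exact_mod_cast hq
    have e1 : |2 * yy τ t * q - a| = 2 * q * |yy τ t - ((9 * a : ℤ) : ℝ) / ((18 * q : ℕ) : ℝ)| := by
      have e0 : 2 * (q : ℝ) = |2 * (q : ℝ)| := (abs_of_pos (by positivity)).symm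
      rw [e0, ← abs_mul]
      congr 1
      push_cast
      field_simp
      ring
    rw [e1]
    have e2 : (1 / 4) * (18 : ℝ) ^ (-τ) * (q : ℝ) ^ (1 - τ) =
        2 * q * ((1 / 8) * (((18 * q : ℕ) : ℝ)) ^ (-τ)) := by
      push_cast
      rw [Real.mul_rpow (by norm_num) hq0.le, show (1 : ℝ) - τ = 1 + -τ by ring, Real.rpow_add hq0,
        Real.rpow_one]
      ring
    rw [e2]
    exact mul_le_mul_of_nonneg_left h1 (by positivity)

lemma yy_upper' {τ t : ℝ} (hτ : 3 < τ) (ht : t ∈ Set.Ico (0 : ℝ) 1) (s : ℝ) (hs : 1 - 1 / τ < s) :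
    ∃ C : ℝ, 1 ≤ C ∧ ∀ N : ℕ, 1 ≤ N → SS (yy τ t) N ≤ C * (N : ℝ) ^ s := by
  obtain ⟨C, hC, h⟩ := yy_upper hτ ht
  set ε := 2 * (s - (1 - 1 / τ)) with hε
  have hε0 : 0 < ε := by rw [hε]; linarith
  refine ⟨Real.sqrt (C * (1 + 1 / ε)) + 1, by linarith [Real.sqrt_nonneg (C * (1 + 1 / ε))],
    fun N hN => ?_⟩
  have hN1 : (1 : ℝ) ≤ N := by exact_mod_cast hN
  have hN0 : (0 : ℝ) < N := by linarith
  have h1 : Real.log N ≤ (N : ℝ) ^ ε / ε := Real.log_le_rpow_div hN0.le hε0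
  have h2 : (1 : ℝ) ≤ (N : ℝ) ^ ε := Real.one_le_rpow hN1 hε0.le
  have h3 : 1 + Real.log N ≤ (1 + 1 / ε) * (N : ℝ) ^ ε := by
    calc 1 + Real.log N ≤ (N : ℝ) ^ ε + (N : ℝ) ^ ε / ε := by linarith
      _ = _ := by ring
  have h4 : SS (yy τ t) N ^ 2 ≤ (C * (1 + 1 / ε)) * ((N : ℝ) ^ s) ^ 2 := by
    calc SS (yy τ t) N ^ 2 ≤ C * (N : ℝ) ^ (2 - 2 / τ) * (1 + Real.log N) := h N hN
      _ ≤ C * (N : ℝ) ^ (2 - 2 / τ) * ((1 + 1 / ε) * (N : ℝ) ^ ε) :=
          mul_le_mul_of_nonneg_left h3 (by positivity)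
      _ = (C * (1 + 1 / ε)) * ((N : ℝ) ^ (2 - 2 / τ) * (N : ℝ) ^ ε) := by ring
      _ = _ := by
          congr 1
          rw [← Real.rpow_add hN0, pow_two, ← Real.rpow_add hN0]
          congr 1
          rw [hε]
          ring
  have h5 : SS (yy τ t) N ≤ Real.sqrt (C * (1 + 1 / ε)) * (N : ℝ) ^ s := by
    have h6 : (Real.sqrt (C * (1 + 1 / ε)) * (N : ℝ) ^ s) ^ 2 = (C * (1 + 1 / ε)) * ((N : ℝ) ^ s) ^ 2 := by
      rw [mul_pow, Real.sq_sqrt (by positivity)]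
    rw [← h6] at h4
    exact (sq_le_sq₀ (SS_nonneg _ _) (by positivity)).1 h4
  have : 0 < (N : ℝ) ^ s := by positivity
  linarith

lemma yy_lower {τ t : ℝ} (hτ : 3 < τ) (ht : t ∈ Set.Ico (0 : ℝ) 1) (N₀ : ℕ) :
    ∃ N : ℕ, N₀ ≤ N ∧ (N : ℝ) ^ (1 - 1 / τ) / 32 ≤ SS (yy τ t) N := by
  obtain ⟨Q₀, hQ₀⟩ := lower_at (yy τ t) τ hτ
  have hgrow : ∀ k, k < QQ τ t k := by
    intro k
    induction k with
    | zero => rw [QQ_zero]; norm_num
    | succ k ih =>
      have h := QQ_double hτ ht k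
      have h' : 2 * QQ τ t k ≤ QQ τ t (k + 1) := by exact_mod_cast h
      omega
  set k := max Q₀ N₀ with hk
  have h1 := hgrow k
  have h2 : Q₀ ≤ k := le_max_left _ _
  have h3 : N₀ ≤ k := le_max_right _ _
  obtain ⟨N, hN, hlow⟩ := hQ₀ (QQ τ t k) (by omega) (QQ_odd τ t k) (PP τ t k) (PP_coprime τ t k)
    (good hτ ht k)
  exact ⟨N, by omega, hlow⟩

/-- the infimum form of the growth exponent -/
lemma yy_inf {τ t : ℝ} (hτ : 3 < τ) (ht : t ∈ Set.Ico (0 : ℝ) 1) :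
    sInf {s : ℝ | 0 < s ∧ (fun N : ℕ => SS (yy τ t) N) =O[atTop] fun N : ℕ => (N : ℝ) ^ s} =
      1 - 1 / τ := by
  have hpos : 0 < 1 - 1 / τ := by
    have : 1 / τ < 1 := by rw [div_lt_one (by linarith)]; linarith
    linarith
  have hbdd : BddBelow {s : ℝ | 0 < s ∧ (fun N : ℕ => SS (yy τ t) N) =O[atTop]
      fun N : ℕ => (N : ℝ) ^ s} := ⟨0, fun s hs => hs.1.le⟩
  have hmem : ∀ s : ℝ, 1 - 1 / τ < s → s ∈ {s : ℝ | 0 < s ∧ (fun N : ℕ => SS (yy τ t) N) =O[atTop]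
      fun N : ℕ => (N : ℝ) ^ s} := by
    intro s hs
    refine ⟨by linarith, ?_⟩
    obtain ⟨C, _, h⟩ := yy_upper' hτ ht s hs
    apply IsBigO.of_bound C
    filter_upwards [eventually_ge_atTop 1] with N hN
    rw [Real.norm_of_nonneg (SS_nonneg _ _), Real.norm_of_nonneg (by positivity)]
    exact h N hN
  apply le_antisymm
  · apply le_of_forall_gt_imp_ge_of_dense
    intro s hs
    exact csInf_le hbdd (hmem s hs)
  · apply le_csInf ⟨_, hmem _ (lt_add_one _)⟩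
    rintro s ⟨_, hs⟩
    refine lower_exp (yy τ t) τ hτ (fun Q₀ => ?_) s hs
    have hgrow : ∀ k, k < QQ τ t k := by
      intro k
      induction k with
      | zero => rw [QQ_zero]; norm_num
      | succ k ih =>
        have h := QQ_double hτ ht k
        have h' : 2 * QQ τ t k ≤ QQ τ t (k + 1) := by exact_mod_cast h
        omega
    exact ⟨QQ τ t Q₀, (hgrow Q₀).le, QQ_odd τ t Q₀, PP τ t Q₀, PP_coprime τ t Q₀, good hτ ht Q₀⟩

/-- the limsup form of the growth exponent -/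
lemma yy_sup {τ t : ℝ} (hτ : 3 < τ) (ht : t ∈ Set.Ico (0 : ℝ) 1) :
    limsup (fun N : ℕ => ((Real.log (SS (yy τ t) N) / Real.log N : ℝ) : EReal)) atTop =
      ((1 - 1 / τ : ℝ) : EReal) := by
  have hlog : Tendsto (fun N : ℕ => Real.log N) atTop atTop :=
    Real.tendsto_log_atTop.comp tendsto_natCast_atTop_atTop
  have hsmall : ∀ K : ℝ, ∀ ε : ℝ, 0 < ε → ∀ᶠ N : ℕ in atTop, K ≤ ε * Real.log N := by
    intro K ε hε
    exact (hlog.const_mul_atTop hε).eventually_ge_atTop K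
  apply le_antisymm
  · rw [← EReal.le_of_forall_lt_iff_le]
    intro z hz
    have hz' : 1 - 1 / τ < z := by exact_mod_cast hz
    set s := ((1 - 1 / τ) + z) / 2 with hs
    obtain ⟨C, hC1, h⟩ := yy_upper' hτ ht s (by linarith)
    apply limsup_le_of_le
    · isBoundedDefault
    have hzs : 0 < z - s := by linarith
    have hs0 : 0 < s := by
      have : 1 / τ < 1 := by rw [div_lt_one (by linarith)]; linarith
      linarith
    filter_upwards [eventually_ge_atTop 2, hsmall (Real.log C) (z - s) hzs] with N hN hK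
    rw [EReal.coe_le_coe_iff]
    have hN1 : (1 : ℝ) < N := by exact_mod_cast hN
    have hl : 0 < Real.log N := Real.log_pos hN1
    rw [div_le_iff₀ hl]
    have hlC : 0 ≤ Real.log C := Real.log_nonneg hC1
    rcases (SS_nonneg (yy τ t) N).eq_or_lt with h0 | h0
    · rw [← h0, Real.log_zero]
      have : 0 < z := by linarith
      positivity
    · have h1 := Real.log_le_log h0 (h N (by omega))
      rw [Real.log_mul (by linarith) (by positivity), Real.log_rpow (by linarith)] at h1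
      linarith
  · rw [← EReal.ge_of_forall_gt_iff_ge]
    intro z hz
    have hz' : z < 1 - 1 / τ := by exact_mod_cast hz
    apply le_limsup_of_frequently_le
    · rw [frequently_atTop]
      intro N₀
      obtain ⟨N₁, hN₁⟩ := (hsmall (Real.log 32) (1 - 1 / τ - z) (by linarith)).exists_forall_of_atTop
      obtain ⟨N, hN, hlow⟩ := yy_lower hτ ht (max (max N₀ N₁) 2)
      have a1 : N₀ ≤ N := ((le_max_left _ _).trans (le_max_left _ _)).trans hN
      have a2 : N₁ ≤ N := ((le_max_right _ _).trans (le_max_left _ _)).trans hN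
      have a3 : 2 ≤ N := (le_max_right _ _).trans hN
      refine ⟨N, a1, ?_⟩
      rw [EReal.coe_le_coe_iff]
      have hN1 : (1 : ℝ) < N := by exact_mod_cast a3
      have hl : 0 < Real.log N := Real.log_pos hN1
      rw [le_div_iff₀ hl]
      have h1 := Real.log_le_log (by positivity) hlow
      rw [Real.log_div (by positivity) (by norm_num), Real.log_rpow (by linarith)] at h1
      have h2 := hN₁ N a2
      linarith
    · isBoundedDefault

end Pool.Agent.Q39.MF
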